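import Mathlib

/-!
# Irreducible closed subsets of `ℙ² × ℙ²` and their function fields
-/

set_option autoImplicit false

open MvPolynomial

namespace Pool.Agent.R863.DK

/-- The projective plane over `k`. -/
abbrev P2 (k : Type*) [Field k] := Projectivization k (Fin 3 → k)

/-- Polynomials in `x₀, x₁, x₂` (the variables `X (Sum.inl i)`) and `y₀, y₁, y₂` (the variables
`X (Sum.inr i)`). -/
abbrev BiPoly (k : Type*) [Field k] := MvPolynomial (Fin 3 ⊕ Fin 3) k

variable {k : Type*} [Field k]

/-- `G` is bihomogeneous, of degree `m` in the `xᵢ` and of degree `n` in the `yᵢ`. -/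
def IsBihom (G : BiPoly k) (m n : ℕ) : Prop :=
  IsWeightedHomogeneous (Sum.elim (fun _ => ((1, 0) : ℕ × ℕ)) (fun _ => ((0, 1) : ℕ × ℕ))) G (m, n)

/-- The bihomogeneous polynomial `G` vanishes at the point `z` of `ℙ² × ℙ²`. -/
def VanishesAt (G : BiPoly k) (z : P2 k × P2 k) : Prop :=
  eval (Sum.elim z.1.rep z.2.rep) G = 0

/-- The Zariski closure of a subset of `ℙ² × ℙ²`. -/
def zclosure (Z : Set (P2 k × P2 k)) : Set (P2 k × P2 k) :=
  {z | ∀ (G : BiPoly k) (m n : ℕ), IsBihom G m n → (∀ w ∈ Z, VanishesAt G w) → VanishesAt G z}

/-- `Z` is a Zariski closed irreducible subset of `ℙ² × ℙ²`. -/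
def IsIrred (Z : Set (P2 k × P2 k)) : Prop :=
  zclosure Z = Z ∧ Z.Nonempty ∧
    ∀ (G H : BiPoly k) (m n m' n' : ℕ), IsBihom G m n → IsBihom H m' n' →
      (∀ z ∈ Z, VanishesAt G z ∨ VanishesAt H z) →
        (∀ z ∈ Z, VanishesAt G z) ∨ (∀ z ∈ Z, VanishesAt H z)

/-- The point with homogeneous coordinates `(1 : a : b)`. -/
def aff (a b : k) : P2 k := Projectivization.mk k ![1, a, b] (fun h => one_ne_zero (congrFun h 0))

/-- The part of `Z` in the affine chart `x₀ ≠ 0`, `y₀ ≠ 0` with the affine coordinates
`x₁/x₀, x₂/x₀` (the coordinates `Sum.inl 0`, `Sum.inl 1`) and `y₁/y₀, y₂/y₀` (the coordinates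
`Sum.inr 0`, `Sum.inr 1`). -/
def affPart (Z : Set (P2 k × P2 k)) : Set (Fin 2 ⊕ Fin 2 → k) :=
  {a | (aff (a (Sum.inl 0)) (a (Sum.inl 1)), aff (a (Sum.inr 0)) (a (Sum.inr 1))) ∈ Z}

/-- The ideal of the affine part of `Z`. -/
def affIdeal (Z : Set (P2 k × P2 k)) : Ideal (MvPolynomial (Fin 2 ⊕ Fin 2) k) :=
  vanishingIdeal k (affPart Z)

/-- The coordinate ring of the affine part of `Z`. -/
abbrev CoordRing (Z : Set (P2 k × P2 k)) : Type _ :=
  MvPolynomial (Fin 2 ⊕ Fin 2) k ⧸ affIdeal Z

/-- The function field of an irreducible closed set `Z` which meets the affine chart: the field of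
fractions of the coordinate ring of its affine part. -/
abbrev FunField (Z : Set (P2 k × P2 k)) : Type _ :=
  FractionRing (CoordRing Z)

/-- An element of the ring `R` as an element of its ring of fractions. -/
noncomputable def toFrac {R : Type*} [CommRing R] (r : R) : FractionRing R :=
  algebraMap R (FractionRing R) r

/-- The coordinate functions `x₁/x₀, x₂/x₀, y₁/y₀, y₂/y₀` as elements of the function field. -/
noncomputable def coord (Z : Set (P2 k × P2 k)) (s : Fin 2 ⊕ Fin 2) : FunField Z :=
  toFrac (Ideal.Quotient.mk (affIdeal Z) (X s))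

/-- Let `R` be the coordinate ring of an affine variety over `k`. The rational map to `ℙ²` given by
the elements `f, g` of the function field of the variety is dominant, that is, `f` and `g` are
algebraically independent over `k`. -/
def IsDominantPair (k R : Type*) [Field k] [CommRing R] [IsDomain R] [Algebra k R]
    (f g : FractionRing R) : Prop :=
  AlgebraicIndependent k ![f, g]

/-- Let `R` be the coordinate ring of an affine surface over `k` and `K` its function field. The
degree `[K : k(f, g)]` of the rational map to `ℙ²` given by the elements `f, g` of `K`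
(`0` if it is infinite). -/
noncomputable def pairDegree (k R : Type*) [Field k] [CommRing R] [IsDomain R] [Algebra k R]
    (f g : FractionRing R) : ℕ :=
  Module.finrank (IntermediateField.adjoin k {f, g}) (FractionRing R)

/-- Let `R` be the coordinate ring of an affine curve over `k` and `K` its function field. The
degree `[K : k(t)]` of the rational function `t` (`0` if it is infinite). -/
noncomputable def elemDegree (k R : Type*) [Field k] [CommRing R] [IsDomain R] [Algebra k R]
    (t : FractionRing R) : ℕ :=
  Module.finrank (IntermediateField.adjoin k {t}) (FractionRing R)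

/-- The degrees of the dominant rational maps to `ℙ²` from an affine surface over `k` with
coordinate ring `R` and function field `K`: such a map is given by two elements `f, g` of `K` which
are algebraically independent over `k`, and its degree is `[K : k(f, g)]`. -/
def mapDegrees (k R : Type*) [Field k] [CommRing R] [IsDomain R] [Algebra k R] : Set ℕ :=
  {d | 0 < d ∧ ∃ f g : FractionRing R, IsDominantPair k R f g ∧ pairDegree k R f g = d}

/-- The degrees of the nonconstant morphisms to `ℙ¹` from the normalization of an affine curve over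
`k` with coordinate ring `R` and function field `K` (completed to a projective curve): such a
morphism is given by an element `t` of `K` which is transcendental over `k`, and its degree is
`[K : k(t)]`. -/
def pencilDegrees (k R : Type*) [Field k] [CommRing R] [IsDomain R] [Algebra k R] : Set ℕ :=
  {d | 0 < d ∧ ∃ t : FractionRing R, Transcendental k t ∧ elemDegree k R t = d}

/-- The degrees of the dominant rational maps from the surface `Z` to `ℙ²`. -/
def surfaceDegrees (Z : Set (P2 k × P2 k)) [(affIdeal Z).IsPrime] : Set ℕ :=
  mapDegrees k (CoordRing Z)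

/-- The degrees of the nonconstant morphisms from the normalization of the curve `Z` to `ℙ¹`. -/
def curveDegrees (Z : Set (P2 k × P2 k)) [(affIdeal Z).IsPrime] : Set ℕ :=
  pencilDegrees k (CoordRing Z)

/-- The first projection `Z → ℙ²` is dominant: `x₁/x₀` and `x₂/x₀` are algebraically independent. -/
def ProjDominant (Z : Set (P2 k × P2 k)) [(affIdeal Z).IsPrime] : Prop :=
  IsDominantPair k (CoordRing Z) (coord Z (Sum.inl 0)) (coord Z (Sum.inl 1))

/-- The degree of the first projection `Z → ℙ²`: the degree of the function field of `Z` over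
`k(x₁/x₀, x₂/x₀)`. -/
noncomputable def projDegree (Z : Set (P2 k × P2 k)) [(affIdeal Z).IsPrime] : ℕ :=
  pairDegree k (CoordRing Z) (coord Z (Sum.inl 0)) (coord Z (Sum.inl 1))

/-- The irreducible closed surface `Z` meets the affine chart (so that its function field is
`FunField Z`), and its first projection to `ℙ²` is a dominant map of degree `d`, which is the
minimal degree of a dominant rational map from `Z` to `ℙ²`. -/
structure ProjMinimal (Z : Set (P2 k × P2 k)) (d : ℕ) : Prop where
  meets : (affPart Z).Nonempty
  prime : (affIdeal Z).IsPrime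
  dominant : ProjDominant Z
  degree_eq : projDegree Z = d
  minimal : IsLeast (surfaceDegrees Z) d

/-- The irreducible closed curve `Z` meets the affine chart (so that its function field is
`FunField Z`), and its gonality is `d`. -/
structure HasGonality (Z : Set (P2 k × P2 k)) (d : ℕ) : Prop where
  meets : (affPart Z).Nonempty
  prime : (affIdeal Z).IsPrime
  minimal : IsLeast (curveDegrees Z) d

/-- `F₁ = x₀² y₀ + x₁² y₁ + x₂² y₂`. -/
noncomputable def F₁ (k : Type*) [Field k] : BiPoly k :=
  ∑ i : Fin 3, X (Sum.inl i) ^ 2 * X (Sum.inr i)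

/-- `F₂ = x₀ y₀² + x₁ y₁² + x₂ y₂²`. -/
noncomputable def F₂ (k : Type*) [Field k] : BiPoly k :=
  ∑ i : Fin 3, X (Sum.inl i) * X (Sum.inr i) ^ 2

/-- The surface `F₁ = F₂ = 0` in `ℙ² × ℙ²`. -/
def surface (k : Type*) [Field k] : Set (P2 k × P2 k) :=
  {z | VanishesAt (F₁ k) z ∧ VanishesAt (F₂ k) z}

/-- The curve `C_L` for the line `L` with the equation `l₀ x₀ + l₁ x₁ + l₂ x₂ = 0`: the Zariski
closure of the preimage of `L` under the first projection `ψ` of the surface. -/
def lineCurve (l : Fin 3 → k) : Set (P2 k × P2 k) :=
  zclosure {z | z ∈ surface k ∧ ∑ i, l i * z.1.rep i = 0}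

end Pool.Agent.R863.DK
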