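import Mathlib
import Pool.Agent.R863.DK.Defs

set_option autoImplicit false

open MvPolynomial

namespace Pool.Agent.R863.DK

variable {k : Type*} [Field k]

theorem weight_eq {G : BiPoly k} {m n : ℕ} (h : IsBihom G m n) {d : (Fin 3 ⊕ Fin 3) →₀ ℕ}
    (hd : d ∈ G.support) : (∑ i, d (Sum.inl i)) = m ∧ (∑ i, d (Sum.inr i)) = n := by
  have h1 := h (mem_support_iff.1 hd)
  rw [Finsupp.weight_apply, Finsupp.sum_fintype _ _ (fun _ => by simp), Fintype.sum_sum_type] at h1
  simp only [Sum.elim_inl, Sum.elim_inr, Prod.smul_mk, smul_eq_mul, mul_one, mul_zero] at h1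
  have h2 := congrArg Prod.fst h1
  have h3 := congrArg Prod.snd h1
  simp only [Prod.fst_add, Prod.snd_add, Prod.fst_sum, Prod.snd_sum, Finset.sum_const_zero,
    add_zero, zero_add] at h2 h3
  exact ⟨h2, h3⟩

theorem eval_scale {G : BiPoly k} {m n : ℕ} (h : IsBihom G m n) (c e : k) (x y : Fin 3 → k) :
    eval (Sum.elim (c • x) (e • y)) G = c ^ m * e ^ n * eval (Sum.elim x y) G := by
  rw [eval_eq', eval_eq', Finset.mul_sum]
  refine Finset.sum_congr rfl fun d hd => ?_
  obtain ⟨h1, h2⟩ := weight_eq h hd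
  rw [Fintype.prod_sum_type, Fintype.prod_sum_type]
  simp only [Sum.elim_inl, Sum.elim_inr, Pi.smul_apply, smul_eq_mul, mul_pow]
  rw [Finset.prod_mul_distrib, Finset.prod_mul_distrib, Finset.prod_pow_eq_pow_sum,
    Finset.prod_pow_eq_pow_sum, h1, h2]
  ring

theorem vanishesAt_mk {G : BiPoly k} {m n : ℕ} (h : IsBihom G m n) {x y : Fin 3 → k} (hx : x ≠ 0)
    (hy : y ≠ 0) : VanishesAt G (Projectivization.mk k x hx, Projectivization.mk k y hy) ↔
      eval (Sum.elim x y) G = 0 := by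
  unfold VanishesAt
  obtain ⟨a, ha⟩ := Projectivization.exists_smul_eq_mk_rep k x hx
  obtain ⟨b, hb⟩ := Projectivization.exists_smul_eq_mk_rep k y hy
  simp only [← ha, ← hb, Units.smul_def]
  rw [eval_scale h, mul_eq_zero, or_iff_right]
  exact mul_ne_zero (pow_ne_zero _ a.ne_zero) (pow_ne_zero _ b.ne_zero)

theorem vanishesAt_mul {G H : BiPoly k} {z : P2 k × P2 k} :
    VanishesAt (G * H) z ↔ VanishesAt G z ∨ VanishesAt H z := by
  unfold VanishesAt
  rw [map_mul, mul_eq_zero]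

/-- the affine coordinates as a vector in `k³ × k³` -/
def ext1 (a : Fin 2 ⊕ Fin 2 → k) : Fin 3 ⊕ Fin 3 → k :=
  Sum.elim ![1, a (Sum.inl 0), a (Sum.inl 1)] ![1, a (Sum.inr 0), a (Sum.inr 1)]

theorem vanishesAt_aff {G : BiPoly k} {m n : ℕ} (h : IsBihom G m n) (a : Fin 2 ⊕ Fin 2 → k) :
    VanishesAt G (aff (a (Sum.inl 0)) (a (Sum.inl 1)), aff (a (Sum.inr 0)) (a (Sum.inr 1))) ↔
      eval (ext1 a) G = 0 := vanishesAt_mk h _ _

theorem isBihom_X_inl (i : Fin 3) : IsBihom (X (Sum.inl i) : BiPoly k) 1 0 :=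
  isWeightedHomogeneous_X _ _ _

theorem isBihom_X_inr (i : Fin 3) : IsBihom (X (Sum.inr i) : BiPoly k) 0 1 :=
  isWeightedHomogeneous_X _ _ _

theorem IsBihom.mul {G H : BiPoly k} {m n m' n' : ℕ} (h : IsBihom G m n) (h' : IsBihom H m' n') :
    IsBihom (G * H) (m + m') (n + n') := IsWeightedHomogeneous.mul h h'

theorem IsBihom.add {G H : BiPoly k} {m n : ℕ} (h : IsBihom G m n) (h' : IsBihom H m n) :
    IsBihom (G + H) m n := IsWeightedHomogeneous.add h h'

theorem IsBihom.pow {G : BiPoly k} {m n : ℕ} (h : IsBihom G m n) (e : ℕ) :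
    IsBihom (G ^ e) (e * m) (e * n) := IsWeightedHomogeneous.pow h e

theorem isBihom_C (c : k) : IsBihom (C c : BiPoly k) 0 0 := isWeightedHomogeneous_C _ _

/-- homogenization -/
theorem exists_hom (P : MvPolynomial (Fin 2 ⊕ Fin 2) k) : ∃ (m n : ℕ) (G : BiPoly k),
    IsBihom G m n ∧ ∀ a, eval (ext1 a) G = eval a P := by
  induction P using MvPolynomial.induction_on with
  | C c => exact ⟨0, 0, C c, isBihom_C c, fun a => by rw [eval_C, eval_C]⟩
  | add p q hp hq =>
    obtain ⟨m, n, G, hG, hG'⟩ := hp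
    obtain ⟨m', n', H, hH, hH'⟩ := hq
    have h1 := (((isBihom_X_inl (k := k) 0).pow m').mul ((isBihom_X_inr (k := k) 0).pow n')).mul hG
    have h2 := (((isBihom_X_inl (k := k) 0).pow m).mul ((isBihom_X_inr (k := k) 0).pow n)).mul hH
    refine ⟨m + m', n + n', X (Sum.inl 0) ^ m' * X (Sum.inr 0) ^ n' * G +
      X (Sum.inl 0) ^ m * X (Sum.inr 0) ^ n * H, IsBihom.add ?_ ?_, fun a => ?_⟩
    · convert h1 using 1 <;> ring
    · convert h2 using 1 <;> ring
    · rw [map_add, map_mul, map_mul, hG', map_mul, map_mul, hH', map_add]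
      simp [ext1]
  | mul_X p s hp =>
    obtain ⟨m, n, G, hG, hG'⟩ := hp
    rcases s with i | i
    · refine ⟨m + 1, n + 0, G * X (Sum.inl i.succ), hG.mul (isBihom_X_inl _), fun a => ?_⟩
      rw [map_mul, map_mul, hG', eval_X, eval_X]
      congr 1
      fin_cases i <;> rfl
    · refine ⟨m + 0, n + 1, G * X (Sum.inr i.succ), hG.mul (isBihom_X_inr _), fun a => ?_⟩
      rw [map_mul, map_mul, hG', eval_X, eval_X]
      congr 1
      fin_cases i <;> rfl

/-- a point with nonzero first coordinate is in the affine chart -/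
theorem eq_aff {p : P2 k} (h : p.rep 0 ≠ 0) : p = aff (p.rep 1 / p.rep 0) (p.rep 2 / p.rep 0) := by
  conv_lhs => rw [← Projectivization.mk_rep p]
  unfold aff
  rw [Projectivization.mk_eq_mk_iff']
  refine ⟨p.rep 0, ?_⟩
  funext i
  fin_cases i <;> simp <;> field_simp

theorem affIdeal_prime {Z : Set (P2 k × P2 k)} (hZ : IsIrred Z) (hne : (affPart Z).Nonempty) :
    (affIdeal Z).IsPrime := by
  obtain ⟨a0, ha0⟩ := hne
  refine ⟨?_, ?_⟩
  · intro h
    have h1 : (1 : MvPolynomial (Fin 2 ⊕ Fin 2) k) ∈ affIdeal Z := by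
      rw [h]
      trivial
    have h2 := (mem_vanishingIdeal_iff.1 h1) a0 ha0
    rw [map_one] at h2
    exact one_ne_zero h2
  · intro P₁ P₂ hP
    obtain ⟨m, n, G, hG, hG'⟩ := exists_hom P₁
    obtain ⟨m', n', H, hH, hH'⟩ := exists_hom P₂
    have hG1 := ((isBihom_X_inl (k := k) 0).mul (isBihom_X_inr (k := k) 0)).mul hG
    have key : ∀ z ∈ Z, VanishesAt (X (Sum.inl 0) * X (Sum.inr 0) * G) z ∨ VanishesAt H z := by
      intro z hz
      by_cases hx : z.1.rep 0 = 0
      · left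
        unfold VanishesAt
        simp [hx]
      by_cases hy : z.2.rep 0 = 0
      · left
        unfold VanishesAt
        simp [hy]
      have hz' : z = (aff (z.1.rep 1 / z.1.rep 0) (z.1.rep 2 / z.1.rep 0),
          aff (z.2.rep 1 / z.2.rep 0) (z.2.rep 2 / z.2.rep 0)) := Prod.ext (eq_aff hx) (eq_aff hy)
      let a : Fin 2 ⊕ Fin 2 → k := Sum.elim ![z.1.rep 1 / z.1.rep 0, z.1.rep 2 / z.1.rep 0]
        ![z.2.rep 1 / z.2.rep 0, z.2.rep 2 / z.2.rep 0]
      have hza : z = (aff (a (Sum.inl 0)) (a (Sum.inl 1)), aff (a (Sum.inr 0)) (a (Sum.inr 1))) := hz'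
      have ha : a ∈ affPart Z := by
        change (aff (a (Sum.inl 0)) (a (Sum.inl 1)), aff (a (Sum.inr 0)) (a (Sum.inr 1))) ∈ Z
        rw [← hza]
        exact hz
      have h1 := (mem_vanishingIdeal_iff.1 hP) a ha
      rw [map_mul, mul_eq_zero] at h1
      rw [hza]
      rcases h1 with h1 | h1
      · left
        rw [vanishesAt_mul, vanishesAt_aff hG, hG']
        exact Or.inr h1
      · right
        rw [vanishesAt_aff hH, hH']
        exact h1
    rcases hZ.2.2 _ _ _ _ _ _ hG1 hH key with h | h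
    · left
      refine mem_vanishingIdeal_iff.2 fun a ha => ?_
      have h1 := h _ ha
      rw [vanishesAt_aff hG1, map_mul, hG', map_mul, eval_X, eval_X] at h1
      simpa [ext1] using h1
    · right
      refine mem_vanishingIdeal_iff.2 fun a ha => ?_
      have h1 := h _ ha
      rw [vanishesAt_aff hH, hH'] at h1
      exact h1

theorem aeval_ev {σ : Type*} (s : σ → k) (P : MvPolynomial σ k) : aeval s P = eval s P :=
  congrArg (fun ψ : MvPolynomial σ k →+* k => ψ P) (MvPolynomial.coe_aeval_eq_eval s)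

/-- evaluation of a polynomial with substituted variables -/
theorem ev_comp {σ A : Type*} [CommRing A] [Algebra k A] (φ : A →ₐ[k] k) (f : σ → A)
    (G : MvPolynomial σ k) : φ (aeval f G) = eval (fun i => φ (f i)) G := by
  have h : φ.comp (aeval f) = aeval (fun i => φ (f i)) := by
    refine MvPolynomial.algHom_ext fun s => ?_
    rw [AlgHom.comp_apply, aeval_X, aeval_X]
  have h2 := congrArg (fun ψ : MvPolynomial σ k →ₐ[k] k => ψ G) h
  simp only [AlgHom.comp_apply] at h2
  rw [h2]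
  exact congrArg (fun ψ : MvPolynomial σ k →+* k => ψ G)
    (MvPolynomial.coe_aeval_eq_eval (fun i => φ (f i)))

section coord

variable {Z : Set (P2 k × P2 k)}

theorem aeval_coord (P : MvPolynomial (Fin 2 ⊕ Fin 2) k) :
    aeval (coord Z) P = algebraMap (MvPolynomial (Fin 2 ⊕ Fin 2) k ⧸ affIdeal Z) (FunField Z)
      (Ideal.Quotient.mk (affIdeal Z) P) := by
  have h : aeval (coord Z) = (IsScalarTower.toAlgHom k (MvPolynomial (Fin 2 ⊕ Fin 2) k ⧸ affIdeal Z)
      (FunField Z)).comp (Ideal.Quotient.mkₐ k (affIdeal Z)) := by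
    refine MvPolynomial.algHom_ext fun s => ?_
    rw [aeval_X]
    rfl
  rw [h]
  rfl

theorem aeval_coord_eq_zero_iff [(affIdeal Z).IsPrime] (P : MvPolynomial (Fin 2 ⊕ Fin 2) k) :
    aeval (coord Z) P = 0 ↔ ∀ a ∈ affPart Z, eval a P = 0 := by
  rw [aeval_coord, map_eq_zero_iff _ (IsFractionRing.injective _ _), Ideal.Quotient.eq_zero_iff_mem]
  exact mem_vanishingIdeal_iff

theorem adjoin_coord [(affIdeal Z).IsPrime] :
    IntermediateField.adjoin k (Set.range (coord Z)) = ⊤ := by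
  rw [eq_top_iff]
  intro z _
  obtain ⟨a, b, hb, rfl⟩ := IsFractionRing.div_surjective
    (A := MvPolynomial (Fin 2 ⊕ Fin 2) k ⧸ affIdeal Z) z
  obtain ⟨P, rfl⟩ := Ideal.Quotient.mk_surjective a
  obtain ⟨S, rfl⟩ := Ideal.Quotient.mk_surjective b
  rw [← aeval_coord, ← aeval_coord]
  have h : ∀ P : MvPolynomial (Fin 2 ⊕ Fin 2) k,
      aeval (coord Z) P ∈ IntermediateField.adjoin k (Set.range (coord Z)) := by
    intro P
    apply IntermediateField.algebra_adjoin_le_adjoin
    rw [Algebra.adjoin_range_eq_range_aeval]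
    exact ⟨P, rfl⟩
  exact div_mem (h P) (h S)

end coord

end Pool.Agent.R863.DK
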