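import Mathlib
import Pool.Agent.R863.DK.General

set_option autoImplicit false

open MvPolynomial

namespace Pool.Agent.R863.DK

/-- the cross product of the vector of fourth powers of `s` with `w` -/
def cx {R : Type*} [CommRing R] (s w : Fin 3 → R) : Fin 3 → R :=
  ![s 1 ^ 4 * w 2 - s 2 ^ 4 * w 1, s 2 ^ 4 * w 0 - s 0 ^ 4 * w 2, s 0 ^ 4 * w 1 - s 1 ^ 4 * w 0]

@[simp] theorem cx_zero {R : Type*} [CommRing R] (s w : Fin 3 → R) :
    cx s w 0 = s 1 ^ 4 * w 2 - s 2 ^ 4 * w 1 := rfl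

@[simp] theorem cx_one {R : Type*} [CommRing R] (s w : Fin 3 → R) :
    cx s w 1 = s 2 ^ 4 * w 0 - s 0 ^ 4 * w 2 := rfl

@[simp] theorem cx_two {R : Type*} [CommRing R] (s w : Fin 3 → R) :
    cx s w 2 = s 0 ^ 4 * w 1 - s 1 ^ 4 * w 0 := rfl

section

variable {k : Type*} [Field k]

theorem isBihom_F₁ : IsBihom (F₁ k) 2 1 := by
  unfold F₁ IsBihom
  refine IsWeightedHomogeneous.sum _ _ _ fun i _ => ?_
  have h1 := ((isBihom_X_inl (k := k) i).pow 2).mul (isBihom_X_inr (k := k) i)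
  exact h1

theorem isBihom_F₂ : IsBihom (F₂ k) 1 2 := by
  unfold F₂ IsBihom
  refine IsWeightedHomogeneous.sum _ _ _ fun i _ => ?_
  have h1 := (isBihom_X_inl (k := k) i).mul ((isBihom_X_inr (k := k) i).pow 2)
  exact h1

theorem eval_F₁ (x y : Fin 3 → k) : eval (Sum.elim x y) (F₁ k) =
    x 0 ^ 2 * y 0 + x 1 ^ 2 * y 1 + x 2 ^ 2 * y 2 := by
  simp [F₁, Fin.sum_univ_three]

theorem eval_F₂ (x y : Fin 3 → k) : eval (Sum.elim x y) (F₂ k) =
    x 0 * y 0 ^ 2 + x 1 * y 1 ^ 2 + x 2 * y 2 ^ 2 := by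
  simp [F₂, Fin.sum_univ_three]

theorem mem_surface_mk {x y : Fin 3 → k} (hx : x ≠ 0) (hy : y ≠ 0) :
    (Projectivization.mk k x hx, Projectivization.mk k y hy) ∈ surface k ↔
      x 0 ^ 2 * y 0 + x 1 ^ 2 * y 1 + x 2 ^ 2 * y 2 = 0 ∧
      x 0 * y 0 ^ 2 + x 1 * y 1 ^ 2 + x 2 * y 2 ^ 2 = 0 := by
  unfold surface
  rw [Set.mem_ofPred_eq, vanishesAt_mk isBihom_F₁, vanishesAt_mk isBihom_F₂, eval_F₁, eval_F₂]

theorem mem_surface_iff {z : P2 k × P2 k} : z ∈ surface k ↔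
      z.1.rep 0 ^ 2 * z.2.rep 0 + z.1.rep 1 ^ 2 * z.2.rep 1 + z.1.rep 2 ^ 2 * z.2.rep 2 = 0 ∧
      z.1.rep 0 * z.2.rep 0 ^ 2 + z.1.rep 1 * z.2.rep 1 ^ 2 + z.1.rep 2 * z.2.rep 2 ^ 2 = 0 := by
  unfold surface
  rw [Set.mem_ofPred_eq, VanishesAt, VanishesAt, eval_F₁, eval_F₂]

/-- a vector orthogonal to the nonzero vector `s⁴` is of the form `s⁴ × w` -/
theorem exists_cx {s y : Fin 3 → k} (hs : s ≠ 0)
    (h : s 0 ^ 4 * y 0 + s 1 ^ 4 * y 1 + s 2 ^ 4 * y 2 = 0) : ∃ w, cx s w = y := by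
  by_cases h0 : s 0 = 0
  · by_cases h1 : s 1 = 0
    · have h2 : s 2 ≠ 0 := by
        intro h2
        apply hs
        funext i
        fin_cases i <;> assumption
      refine ⟨![y 1 / s 2 ^ 4, -(y 0) / s 2 ^ 4, 0], ?_⟩
      rw [h0, h1] at h
      have h3 : y 2 = 0 := by
        have : s 2 ^ 4 * y 2 = 0 := by linear_combination h
        exact (mul_eq_zero.1 this).resolve_left (pow_ne_zero 4 h2)
      funext i
      fin_cases i <;> simp [cx, h0, h1, h3] <;> field_simp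
    · refine ⟨![-(y 2) / s 1 ^ 4, 0, y 0 / s 1 ^ 4], ?_⟩
      have h3 : y 1 = -(s 2 ^ 4 * y 2) / s 1 ^ 4 := by
        field_simp
        linear_combination h - s 0 ^ 3 * y 0 * h0
      funext i
      fin_cases i <;> simp [cx, h0, h3] <;> field_simp
  · refine ⟨![0, y 2 / s 0 ^ 4, -(y 1) / s 0 ^ 4], ?_⟩
    have h3 : y 0 = -(s 1 ^ 4 * y 1 + s 2 ^ 4 * y 2) / s 0 ^ 4 := by
      field_simp
      linear_combination h
    funext i
    fin_cases i <;> simp [cx, h3] <;> field_simp <;> ring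

/-- a vector with zero cross product with a nonzero vector is a multiple of it -/
theorem exists_smul {y v : Fin 3 → k} (hv : v ≠ 0) (h01 : y 0 * v 1 = y 1 * v 0)
    (h12 : y 1 * v 2 = y 2 * v 1) (h20 : y 2 * v 0 = y 0 * v 2) : ∃ c : k, y = c • v := by
  obtain ⟨j, hj⟩ := Function.ne_iff.1 hv
  refine ⟨y j / v j, ?_⟩
  funext i
  simp only [Pi.smul_apply, smul_eq_mul]
  rw [Pi.zero_apply] at hj
  rw [div_mul_eq_mul_div, eq_div_iff hj]
  fin_cases j <;> fin_cases i <;> simp <;> first | assumption | (symm; assumption)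

end

section

variable {k : Type*} [Field k] [CharP k 2]

theorem two_zero : (2 : k) = 0 := CharTwo.two_eq_zero

theorem cx_add (s w : Fin 3 → k) (ε : k) (h : cx s s = 0) :
    cx (fun i => s i + ε * w i) (fun i => s i + ε * w i) =
      ε • (fun i => cx s w i + ε ^ 3 * cx w s i + ε ^ 4 * cx w w i) := by
  have t2 : (2 : k) = 0 := two_zero
  have h4 : ∀ a b : k, (a + b) ^ 4 = a ^ 4 + b ^ 4 := by
    intro a b
    linear_combination (2 * a ^ 3 * b + 3 * a ^ 2 * b ^ 2 + 2 * a * b ^ 3) * t2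
  have e0 := congrFun h 0
  have e1 := congrFun h 1
  have e2 := congrFun h 2
  simp only [cx_zero, cx_one, cx_two, Pi.zero_apply] at e0 e1 e2
  funext i
  fin_cases i
  · simp [h4]
    linear_combination e0
  · simp [h4]
    linear_combination e1
  · simp [h4]
    linear_combination e2

omit [CharP k 2] in
/-- square roots of the coordinates -/
theorem exists_sqrt [IsAlgClosed k] (x : Fin 3 → k) : ∃ s : Fin 3 → k, ∀ i, s i ^ 2 = x i := by
  choose s hs using fun i => IsAlgClosed.exists_pow_nat_eq (x i) (n := 2) (by norm_num)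
  exact ⟨s, hs⟩

theorem perp_of_mem {s y : Fin 3 → k}
    (h1 : (s 0 ^ 2) ^ 2 * y 0 + (s 1 ^ 2) ^ 2 * y 1 + (s 2 ^ 2) ^ 2 * y 2 = 0)
    (h2 : s 0 ^ 2 * y 0 ^ 2 + s 1 ^ 2 * y 1 ^ 2 + s 2 ^ 2 * y 2 ^ 2 = 0) :
    s 0 ^ 4 * y 0 + s 1 ^ 4 * y 1 + s 2 ^ 4 * y 2 = 0 ∧ s 0 * y 0 + s 1 * y 1 + s 2 * y 2 = 0 := by
  have t2 : (2 : k) = 0 := two_zero
  refine ⟨by linear_combination h1, ?_⟩
  have h3 : (s 0 * y 0 + s 1 * y 1 + s 2 * y 2) ^ 2 = 0 := by
    linear_combination h2 + (s 0 * y 0 * s 1 * y 1 + s 0 * y 0 * s 2 * y 2 +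
      s 1 * y 1 * s 2 * y 2) * t2
  exact pow_eq_zero_iff (two_ne_zero) |>.1 h3

omit [CharP k 2] in
/-- a point over `x = s²` with `s⁴ × s ≠ 0` -/
theorem eq_cx {s y : Fin 3 → k} (hs : cx s s ≠ 0)
    (h1 : s 0 ^ 4 * y 0 + s 1 ^ 4 * y 1 + s 2 ^ 4 * y 2 = 0)
    (h2 : s 0 * y 0 + s 1 * y 1 + s 2 * y 2 = 0) : ∃ c : k, y = c • cx s s := by
  refine exists_smul hs ?_ ?_ ?_
  · simp only [cx_zero, cx_one, cx_two]
    linear_combination s 2 ^ 4 * h2 - s 2 * h1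
  · simp only [cx_zero, cx_one, cx_two]
    linear_combination s 0 ^ 4 * h2 - s 0 * h1
  · simp only [cx_zero, cx_one, cx_two]
    linear_combination s 1 ^ 4 * h2 - s 1 * h1

theorem mem_param {s : Fin 3 → k} :
    (s 0 ^ 2) ^ 2 * cx s s 0 + (s 1 ^ 2) ^ 2 * cx s s 1 + (s 2 ^ 2) ^ 2 * cx s s 2 = 0 ∧
    s 0 ^ 2 * cx s s 0 ^ 2 + s 1 ^ 2 * cx s s 1 ^ 2 + s 2 ^ 2 * cx s s 2 ^ 2 = 0 := by
  have t2 : (2 : k) = 0 := two_zero
  constructor
  · simp only [cx_zero, cx_one, cx_two]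
    ring
  · have h : s 0 * cx s s 0 + s 1 * cx s s 1 + s 2 * cx s s 2 = 0 := by
      simp only [cx_zero, cx_one, cx_two]
      ring
    linear_combination (s 0 * cx s s 0 + s 1 * cx s s 1 + s 2 * cx s s 2) * h -
      (s 0 * cx s s 0 * s 1 * cx s s 1 + s 0 * cx s s 0 * s 2 * cx s s 2 +
        s 1 * cx s s 1 * s 2 * cx s s 2) * t2

/-- the parametrization by polynomials -/
noncomputable def par (k : Type*) [Field k] : Fin 3 ⊕ Fin 3 → MvPolynomial (Fin 3) k :=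
  Sum.elim (fun i => X i ^ 2) (cx X X)

omit [CharP k 2] in
theorem eval_par (G : BiPoly k) (s : Fin 3 → k) :
    eval s (aeval (par k) G) = eval (Sum.elim (fun i => s i ^ 2) (cx s s)) G := by
  rw [← aeval_ev, ev_comp (aeval s : MvPolynomial (Fin 3) k →ₐ[k] k) (par k) G]
  have hf : (fun i => aeval s (par k i)) = Sum.elim (fun i => s i ^ 2) (cx s s) := ?_
  · rw [hf]
  funext i
  rcases i with i | i
  · simp [par]
  · fin_cases i <;> simp [par]

omit [CharP k 2] in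
theorem cx_ne_zero_poly : (cx X X 0 : MvPolynomial (Fin 3) k) ≠ 0 := by
  intro h
  have h1 := congrArg (aeval ![1, Polynomial.X, 1] : MvPolynomial (Fin 3) k → Polynomial k) h
  simp only [cx_zero, map_sub, map_mul, map_pow, aeval_X, map_zero, Matrix.cons_val_one,
    Matrix.cons_val, one_pow, mul_one, one_mul] at h1
  have h2 := congrArg (fun p => Polynomial.coeff p 4) h1
  simp [Polynomial.coeff_X] at h2

end

end Pool.Agent.R863.DK
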