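import Mathlib
import Pool.Agent.R863.DK.Surface

set_option autoImplicit false

open MvPolynomial

namespace Pool.Agent.R863.DK

variable {k : Type*} [Field k] [IsAlgClosed k] [CharP k 2]

omit [IsAlgClosed k] [CharP k 2] in
theorem rep_ne {z : P2 k} : z.rep ≠ 0 := Projectivization.rep_nonzero z

theorem vanish_surface {G : BiPoly k} {m n : ℕ} (hG : IsBihom G m n) (h0 : aeval (par k) G = 0) :
    ∀ z ∈ surface k, VanishesAt G z := by
  intro z hz
  rw [mem_surface_iff] at hz
  obtain ⟨s, hs⟩ := exists_sqrt z.1.rep
  obtain ⟨h1, h2⟩ := hz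
  rw [← hs, ← hs, ← hs] at h1 h2
  obtain ⟨p4, p1⟩ := perp_of_mem h1 h2
  have hx : z.1.rep = fun i => s i ^ 2 := funext fun i => (hs i).symm
  have hs0 : s ≠ 0 := by
    intro h
    apply rep_ne (z := z.1)
    rw [hx, h]
    funext i
    simp
  have hpar : ∀ t : Fin 3 → k, eval (Sum.elim (fun i => t i ^ 2) (cx t t)) G = 0 := by
    intro t
    rw [← eval_par, h0, map_zero]
  unfold VanishesAt
  by_cases hc : cx s s = 0
  · obtain ⟨w, hw⟩ := exists_cx hs0 p4
    let f : Fin 3 ⊕ Fin 3 → Polynomial k := Sum.elim
      (fun i => (Polynomial.C (s i) + Polynomial.X * Polynomial.C (w i)) ^ 2)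
      (fun i => Polynomial.C (cx s w i) + Polynomial.X ^ 3 * Polynomial.C (cx w s i) +
        Polynomial.X ^ 4 * Polynomial.C (cx w w i))
    have hev : ∀ ε : k, (aeval f G).eval ε = eval (Sum.elim (fun i => (s i + ε * w i) ^ 2)
        (fun i => cx s w i + ε ^ 3 * cx w s i + ε ^ 4 * cx w w i)) G := by
      intro ε
      have h := ev_comp (Polynomial.aeval ε : Polynomial k →ₐ[k] k) f G
      rw [Polynomial.coe_aeval_eq_eval] at h
      rw [h]
      have hf : (fun i => (f i).eval ε) = Sum.elim (fun i => (s i + ε * w i) ^ 2)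
        (fun i => cx s w i + ε ^ 3 * cx w s i + ε ^ 4 * cx w w i) := by
        funext i
        rcases i with i | i
        · simp [f]
          ring
        · simp [f]
          ring
      rw [← hf]
    have hzero : ∀ ε : k, (Polynomial.X ^ n * aeval f G).eval ε = 0 := by
      intro ε
      rw [Polynomial.eval_mul, Polynomial.eval_pow, Polynomial.eval_X, hev]
      have h := hpar (fun i => s i + ε * w i)
      rw [cx_add s w ε hc] at h
      have h' := eval_scale hG 1 ε (fun i => (s i + ε * w i) ^ 2)
        (fun i => cx s w i + ε ^ 3 * cx w s i + ε ^ 4 * cx w w i)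
      rw [one_smul, h, one_pow, one_mul] at h'
      exact h'.symm
    have hG0 : aeval f G = 0 := by
      have h : Polynomial.X ^ n * aeval f G = 0 := Polynomial.funext fun ε => by
        rw [hzero, Polynomial.eval_zero]
      exact (mul_eq_zero.1 h).resolve_left (pow_ne_zero n Polynomial.X_ne_zero)
    have h := hev 0
    rw [hG0, Polynomial.eval_zero] at h
    have e1 : (fun i => (s i + 0 * w i) ^ 2) = fun i => s i ^ 2 := by
      funext i
      ring
    have e2 : (fun i => cx s w i + 0 ^ 3 * cx w s i + 0 ^ 4 * cx w w i) = cx s w := by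
      funext i
      ring
    rw [e1, e2] at h
    rw [hx, ← hw]
    exact h.symm
  · obtain ⟨c, hc'⟩ := eq_cx hc p4 p1
    rw [hx, hc']
    have h' := eval_scale hG 1 c (fun i => s i ^ 2) (cx s s)
    rw [one_smul, hpar, mul_zero] at h'
    exact h'

theorem irred_surface : IsIrred (surface k) := by
  refine ⟨?_, ?_, ?_⟩
  · apply Set.Subset.antisymm
    · intro z hz
      exact ⟨hz (F₁ k) 2 1 isBihom_F₁ fun w hw => hw.1, hz (F₂ k) 1 2 isBihom_F₂ fun w hw => hw.2⟩
    · intro z hz G m n _ h
      exact h z hz
  · have h1 : (![1, 0, 0] : Fin 3 → k) ≠ 0 := fun h => one_ne_zero (congrFun h 0)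
    have h2 : (![0, 1, 0] : Fin 3 → k) ≠ 0 := fun h => one_ne_zero (congrFun h 1)
    refine ⟨(Projectivization.mk k _ h1, Projectivization.mk k _ h2), ?_⟩
    rw [mem_surface_mk]
    simp
  · intro G H m n m' n' hG hH h
    have key : aeval (par k) G * aeval (par k) H * cx X X 0 = 0 := by
      apply MvPolynomial.funext
      intro s
      rw [map_mul, map_mul, map_zero, eval_par, eval_par]
      have h0 : eval s (cx X X 0 : MvPolynomial (Fin 3) k) = cx s s 0 := by simp
      rw [h0]
      by_cases hc : cx s s = 0
      · rw [hc, Pi.zero_apply, mul_zero]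
      · have hs : (fun i => s i ^ 2) ≠ 0 := by
          intro h
          apply hc
          have hs : ∀ i, s i = 0 := fun i => by
            have := congrFun h i
            simpa using this
          funext i
          fin_cases i <;> simp [hs]
        have hz : (Projectivization.mk k _ hs, Projectivization.mk k _ hc) ∈ surface k := by
          rw [mem_surface_mk]
          exact mem_param
        rcases h _ hz with h | h
        · rw [vanishesAt_mk hG] at h
          rw [h, zero_mul, zero_mul]
        · rw [vanishesAt_mk hH] at h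
          rw [h, mul_zero, zero_mul]
    rcases mul_eq_zero.1 ((mul_eq_zero.1 key).resolve_right cx_ne_zero_poly) with h | h
    · exact Or.inl (vanish_surface hG h)
    · exact Or.inr (vanish_surface hH h)

end Pool.Agent.R863.DK
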