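import Mathlib

/-!
# Non-rationality of the surface `∑ xᵢ² yᵢ = ∑ xᵢ yᵢ² = 0` in characteristic two

`nonrat`: the field `k(u,v)` is not generated by a solution of the two equations.
-/

set_option autoImplicit false

open MvPolynomial

namespace Pool.Agent.R863.DK

/-- no common prime factor -/
def Cop {R : Type*} [CommRing R] {ι : Type*} (t : ι → R) : Prop :=
  ∀ p : R, Prime p → ∃ j, ¬ p ∣ t j

section ufd

variable {R : Type*} [CommRing R] [IsDomain R] [UniqueFactorizationMonoid R]

theorem dvd_of_cop {ι : Type*} {t : ι → R} (ht : Cop t) (hne : ∃ j, t j ≠ 0) (x : R) :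
    ∀ y : R, (∀ j, x ∣ t j * y) → x ∣ y := by
  induction x using UniqueFactorizationMonoid.induction_on_prime with
  | h₁ =>
    intro y h
    obtain ⟨j, hj⟩ := hne
    have := h j
    rw [zero_dvd_iff, mul_eq_zero] at this
    rw [this.resolve_left hj]
  | h₂ x hx =>
    intro y _
    exact hx.dvd
  | h₃ a p _ hp ih =>
    intro y h
    obtain ⟨j, hj⟩ := ht p hp
    have h1 : p ∣ y := (hp.dvd_or_dvd ((dvd_mul_right p a).trans (h j))).resolve_left hj
    obtain ⟨z, rfl⟩ := h1
    refine mul_dvd_mul_left p (ih z fun i => ?_)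
    have h2 := h i
    rw [mul_left_comm] at h2
    exact (mul_dvd_mul_iff_left hp.ne_zero).1 h2

omit [IsDomain R] [UniqueFactorizationMonoid R] in
theorem cop_sq {ι : Type*} {t : ι → R} (ht : Cop t) : Cop (fun j => t j ^ 2) := by
  intro p hp
  obtain ⟨j, hj⟩ := ht p hp
  exact ⟨j, fun h => hj (hp.dvd_of_dvd_pow h)⟩

/-- a vector parallel to a coprime vector is a multiple of it -/
theorem exists_mul {ι : Type*} {t c : ι → R} (ht : Cop t) (hne : ∃ j, t j ≠ 0)
    (h : ∀ i j, t i * c j = t j * c i) : ∃ a, ∀ i, c i = a * t i := by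
  obtain ⟨j, hj⟩ := hne
  have h1 : t j ∣ c j := dvd_of_cop ht ⟨j, hj⟩ (t j) (c j) fun i => ⟨c i, h i j⟩
  obtain ⟨a, ha⟩ := h1
  refine ⟨a, fun i => ?_⟩
  apply mul_left_cancel₀ hj
  rw [← h i j, ha]
  ring

/-- coprime representatives of a finite family of fractions -/
theorem exists_rep (Q : Type*) [Field Q] [Algebra R Q] [IsFractionRing R Q] (ξ : Fin 3 → Q)
    (h0 : ξ 0 ≠ 0) : ∃ (A : Fin 3 → R) (c : Q), c ≠ 0 ∧ (∀ i, algebraMap R Q (A i) = c * ξ i) ∧
      Cop A := by
  classical
  obtain ⟨b, hb⟩ := IsLocalization.exist_integer_multiples_of_finite (nonZeroDivisors R) ξ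
  choose F hF using hb
  let _ : StrongNormalizationMonoid R := UniqueFactorizationMonoid.strongNormalizationMonoid
  let _ : NormalizedGCDMonoid R := UniqueFactorizationMonoid.toNormalizedGCDMonoid R
  obtain ⟨g, hg, hg1⟩ := Finset.extract_gcd F (Finset.univ_nonempty (α := Fin 3))
  set G := Finset.univ.gcd F with hG
  have hb0 : algebraMap R Q (b : R) ≠ 0 :=
    IsFractionRing.to_map_ne_zero_of_mem_nonZeroDivisors b.2
  have hG0 : G ≠ 0 := by
    intro h
    have h1 := hF 0
    rw [hg 0 (Finset.mem_univ _), h, zero_mul, map_zero, Algebra.smul_def] at h1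
    exact (mul_ne_zero hb0 h0) h1.symm
  have hG0' : algebraMap R Q G ≠ 0 := by
    rw [Ne, map_eq_zero_iff _ (IsFractionRing.injective R Q)]
    exact hG0
  refine ⟨g, algebraMap R Q (b : R) / algebraMap R Q G, div_ne_zero hb0 hG0', fun i => ?_, ?_⟩
  · have h1 := hF i
    rw [hg i (Finset.mem_univ _), map_mul, Algebra.smul_def] at h1
    field_simp
    rw [← h1]
    ring
  · intro p hp
    by_contra hcon
    push Not at hcon
    have h1 : p ∣ Finset.univ.gcd g := Finset.dvd_gcd fun i _ => hcon i
    rw [hg1] at h1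
    exact hp.not_isUnit (isUnit_of_dvd_one h1)

end ufd

section deg

variable {k : Type*} [Field k]

theorem totalDegree_pderiv_le (i : Fin 2) (P : MvPolynomial (Fin 2) k) :
    (pderiv i P).totalDegree ≤ P.totalDegree - 1 := by
  classical
  rw [totalDegree, Finset.sup_le_iff]
  intro d hd
  rw [mem_support_iff, coeff_pderiv] at hd
  have h1 : coeff (d + Finsupp.single i 1) P ≠ 0 := left_ne_zero_of_mul hd
  have h2 := le_totalDegree (mem_support_iff.2 h1)
  have h3 : (d + Finsupp.single i 1).sum (fun _ e => e) = d.sum (fun _ e => e) + 1 := by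
    rw [Finsupp.sum_add_index' (fun _ => rfl) (fun _ _ _ => rfl), Finsupp.sum_single_index rfl]
  rw [h3] at h2
  omega

theorem pderiv_eq_zero_of_totalDegree (i : Fin 2) (P : MvPolynomial (Fin 2) k)
    (h : P.totalDegree = 0) : pderiv i P = 0 := by
  rw [totalDegree_eq_zero_iff_eq_C.1 h, pderiv_C]

/-- degree bound for a Wronskian -/
theorem wr_deg (i : Fin 2) {P S : MvPolynomial (Fin 2) k} {m : ℕ} (hP : P.totalDegree ≤ m)
    (hS : S.totalDegree ≤ m) (hne : P * pderiv i S - S * pderiv i P ≠ 0) :
    (P * pderiv i S - S * pderiv i P).totalDegree + 1 ≤ 2 * m := by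
  have hm : m ≠ 0 := by
    rintro rfl
    apply hne
    rw [pderiv_eq_zero_of_totalDegree i P (by omega), pderiv_eq_zero_of_totalDegree i S (by omega)]
    ring
  have h1 := totalDegree_pderiv_le i P
  have h2 := totalDegree_pderiv_le i S
  have h3 := totalDegree_sub (P * pderiv i S) (S * pderiv i P)
  have h4 := totalDegree_mul P (pderiv i S)
  have h5 := totalDegree_mul S (pderiv i P)
  have h6 : (P * pderiv i S - S * pderiv i P).totalDegree ≤ m + (m - 1) := by
    refine h3.trans (max_le ?_ ?_) <;> omega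
  omega

end deg

section frac

/-- Derivations extend to the field of fractions. -/
theorem exists_der_frac {k B : Type*} [Field k] [CommRing B] [IsDomain B] [Algebra k B]
    (E : Derivation k B B) : ∃ E' : Derivation k (FractionRing B) (FractionRing B),
      ∀ b, E' (algebraMap B (FractionRing B) b) = algebraMap B (FractionRing B) (E b) := by
  let L := FractionRing B
  have hfe : Algebra.FormallyEtale B L :=
    Algebra.FormallyEtale.of_isLocalization (nonZeroDivisors B)
  let l0 : Ω[B⁄k] →ₗ[B] L := (Algebra.linearMap B L) ∘ₗ E.liftKaehlerDifferential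
  let l : TensorProduct B L Ω[B⁄k] →ₗ[L] L := LinearMap.liftBaseChange L l0
  let e := KaehlerDifferential.tensorKaehlerEquivOfFormallyEtale k B L
  refine ⟨(l ∘ₗ e.symm.toLinearMap).compDer (KaehlerDifferential.D k L), fun c => ?_⟩
  change l (e.symm (KaehlerDifferential.D k L (algebraMap B L c))) = _
  rw [KaehlerDifferential.tensorKaehlerEquivOfFormallyEtale_symm_D_algebraMap,
    LinearMap.liftBaseChange_tmul, one_smul]
  change algebraMap B L (E.liftKaehlerDifferential (KaehlerDifferential.D k B c)) = _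
  rw [Derivation.liftKaehlerDifferential_comp_D]

end frac

section main

variable {k : Type*} [Field k] [CharP k 2]

/-- the cross product of a vector and its derivative -/
noncomputable def crs (i : Fin 2) (A : Fin 3 → MvPolynomial (Fin 2) k) :
    Fin 3 → MvPolynomial (Fin 2) k :=
  ![A 1 * pderiv i (A 2) - A 2 * pderiv i (A 1), A 2 * pderiv i (A 0) - A 0 * pderiv i (A 2),
    A 0 * pderiv i (A 1) - A 1 * pderiv i (A 0)]

theorem two_eq_zero : (2 : MvPolynomial (Fin 2) k) = 0 := CharTwo.two_eq_zero

theorem crs_rep (i : Fin 2) {A B : Fin 3 → MvPolynomial (Fin 2) k}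
    (h : A 0 * B 0 ^ 2 + A 1 * B 1 ^ 2 + A 2 * B 2 ^ 2 = 0) (hB : Cop B) (hB0 : B 0 ≠ 0) :
    ∃ a, ∀ j, crs i A j = a * B j ^ 2 := by
  have h2 : (2 : MvPolynomial (Fin 2) k) = 0 := two_eq_zero
  have h' : pderiv i (A 0) * B 0 ^ 2 + pderiv i (A 1) * B 1 ^ 2 + pderiv i (A 2) * B 2 ^ 2 = 0 := by
    have h1 := congrArg (pderiv i) h
    rw [map_zero, map_add, map_add] at h1
    simp only [Derivation.leibniz, Derivation.leibniz_pow, smul_eq_mul, nsmul_eq_mul,
      Nat.cast_ofNat, h2, zero_mul, mul_zero, zero_add] at h1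
    linear_combination h1
  refine exists_mul (t := fun j => B j ^ 2) (cop_sq hB) ⟨0, pow_ne_zero 2 hB0⟩ ?_
  have key : ∀ a b c : Fin 3, ∀ (hh : A a * B a ^ 2 + A b * B b ^ 2 + A c * B c ^ 2 = 0)
      (hh' : pderiv i (A a) * B a ^ 2 + pderiv i (A b) * B b ^ 2 + pderiv i (A c) * B c ^ 2 = 0),
      B b ^ 2 * (A b * pderiv i (A c) - A c * pderiv i (A b)) =
        B a ^ 2 * (A c * pderiv i (A a) - A a * pderiv i (A c)) := by
    intro a b c hh hh'
    linear_combination pderiv i (A c) * hh - A c * hh'
  have k01 := key 0 1 2 h h'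
  have k12 := key 1 2 0 (by linear_combination h) (by linear_combination h')
  have k20 := key 2 0 1 (by linear_combination h) (by linear_combination h')
  intro a b
  fin_cases a <;> fin_cases b <;> simp only [crs, Matrix.cons_val_zero, Matrix.cons_val_one,
    Matrix.cons_val, Fin.zero_eta, Fin.mk_one, Fin.reduceFinMk]
  · linear_combination -k01
  · linear_combination k20
  · linear_combination k01
  · linear_combination -k12
  · linear_combination -k20
  · linear_combination k12

omit [CharP k 2] in
theorem exists_max (A : Fin 3 → MvPolynomial (Fin 2) k) (hA0 : A 0 ≠ 0) :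
    ∃ j, A j ≠ 0 ∧ ∀ i, (A i).totalDegree ≤ (A j).totalDegree := by
  classical
  obtain ⟨j, _, hj⟩ := Finset.exists_max_image Finset.univ (fun i => (A i).totalDegree)
    (Finset.univ_nonempty (α := Fin 3))
  by_cases h : A j = 0
  · refine ⟨0, hA0, fun i => ?_⟩
    have := hj i (Finset.mem_univ _)
    rw [h, totalDegree_zero] at this
    omega
  · exact ⟨j, h, fun i => hj i (Finset.mem_univ _)⟩

omit [CharP k 2] in
/-- the degree inequality -/
theorem deg_ineq (i : Fin 2) {A B : Fin 3 → MvPolynomial (Fin 2) k} {a : MvPolynomial (Fin 2) k}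
    (h : ∀ j, crs i A j = a * B j ^ 2) (ha : a ≠ 0) {m : ℕ} (hm : ∀ j, (A j).totalDegree ≤ m)
    {j : Fin 3} (hj : B j ≠ 0) : 2 * (B j).totalDegree + 1 ≤ 2 * m := by
  have h1 : (crs i A j).totalDegree = a.totalDegree + 2 * (B j).totalDegree := by
    rw [h, totalDegree_mul_of_isDomain ha (pow_ne_zero 2 hj), sq,
      totalDegree_mul_of_isDomain hj hj]
    ring
  have h2 : crs i A j ≠ 0 := by
    rw [h]
    exact mul_ne_zero ha (pow_ne_zero 2 hj)
  have h3 : (crs i A j).totalDegree + 1 ≤ 2 * m := by
    revert h2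
    fin_cases j
    · exact fun h2 => wr_deg i (hm 1) (hm 2) h2
    · exact fun h2 => wr_deg i (hm 2) (hm 0) h2
    · exact fun h2 => wr_deg i (hm 0) (hm 1) h2
  omega

omit [CharP k 2] in
theorem kill {L : Type*} [Field L] [Algebra k L] (E : Derivation k L L) (S : Set L)
    (hS : IntermediateField.adjoin k S = ⊤) (hE : ∀ z ∈ S, E z = 0) (z : L) : E z = 0 := by
  have hz : z ∈ IntermediateField.adjoin k S := by
    rw [hS]
    exact IntermediateField.mem_top
  induction hz using IntermediateField.adjoin_induction with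
  | mem x hx => exact hE x hx
  | algebraMap x => exact E.map_algebraMap x
  | add x y _ _ hx hy => rw [map_add, hx, hy, add_zero]
  | inv x _ hx => rw [Derivation.leibniz_inv, hx, smul_zero]
  | mul x y _ _ hx hy => rw [Derivation.leibniz, hx, hy, smul_zero, smul_zero, add_zero]

omit [CharP k 2] in
/-- four elements with two constants and a relation do not generate a field with two
independent derivations -/
theorem half {L : Type*} [Field L] [Algebra k L] (D : Fin 2 → Derivation k L L) (u : Fin 2 → L)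
    (hD : ∀ i j, D i (u j) = if i = j then 1 else 0) {x y z w α β : L}
    (hgen : IntermediateField.adjoin k {x, y, z, w} = ⊤) (hx : ∀ i, D i x = 0)
    (hy : ∀ i, D i y = 0) (hβ : β ≠ 0) (h : ∀ i, α * D i z + β * D i w = 0) : False := by
  have hw : ∀ i, D i w = -(α / β) * D i z := by
    intro i
    field_simp
    linear_combination h i
  let E : Derivation k L L := D 1 z • D 0 - D 0 z • D 1
  have hE : ∀ t, E t = D 1 z * D 0 t - D 0 z * D 1 t := fun t => rfl
  have hE0 : ∀ t, E t = 0 := by
    refine kill E _ hgen ?_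
    intro t ht
    simp only [Set.mem_insert_iff, Set.mem_singleton_iff] at ht
    rw [hE]
    rcases ht with rfl | rfl | rfl | rfl
    · rw [hx, hx]; ring
    · rw [hy, hy]; ring
    · ring
    · rw [hw, hw]; ring
  have h1 : D 1 z = 0 := by
    have := hE0 (u 0)
    rw [hE, hD, hD] at this
    simpa using this
  have h0 : D 0 z = 0 := by
    have := hE0 (u 1)
    rw [hE, hD, hD] at this
    simpa using this
  have h2 : ∀ t, D 0 t = 0 := by
    refine kill (D 0) _ hgen ?_
    intro t ht
    simp only [Set.mem_insert_iff, Set.mem_singleton_iff] at ht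
    rcases ht with rfl | rfl | rfl | rfl
    · exact hx 0
    · exact hy 0
    · exact h0
    · rw [hw, h0, mul_zero]
  have h3 := hD 0 0
  rw [h2, if_pos rfl] at h3
  exact zero_ne_one h3

/-- the polynomial ring in two variables -/
abbrev RR (k : Type*) [Field k] := MvPolynomial (Fin 2) k

/-- its field of fractions -/
abbrev QQ (k : Type*) [Field k] := FractionRing (MvPolynomial (Fin 2) k)

/-- `k(u,v)` is not generated by a solution of the two equations. -/
theorem nonrat (x y z w : QQ k)
    (h1 : 1 + x ^ 2 * z + y ^ 2 * w = 0) (h2 : 1 + x * z ^ 2 + y * w ^ 2 = 0) :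
    IntermediateField.adjoin k {x, y, z, w} ≠ ⊤ := by
  classical
  intro hgen
  have hinj : Function.Injective (algebraMap (RR k) (QQ k)) := IsFractionRing.injective (RR k) (QQ k)
  have t2 : (2 : QQ k) = 0 := by
    have h : algebraMap (RR k) (QQ k) 2 = 0 := by rw [two_eq_zero, map_zero]
    rwa [map_ofNat] at h
  choose D hD using fun i : Fin 2 => exists_der_frac (pderiv (R := k) i)
  have hDu : ∀ i j, D i (algebraMap (RR k) (QQ k) (X j)) = if i = j then 1 else 0 := by
    intro i j
    rw [hD, pderiv_X, Pi.single_apply]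
    by_cases h : i = j
    · rw [if_pos h.symm, if_pos h, map_one]
    · rw [if_neg h, if_neg (Ne.symm h), map_zero]
  -- coprime representatives
  obtain ⟨A, c, hc, hA, hcA⟩ := exists_rep (R := RR k) (QQ k) ![1, x, y] one_ne_zero
  obtain ⟨B, e, he, hB, hcB⟩ := exists_rep (R := RR k) (QQ k) ![1, z, w] one_ne_zero
  have hA' : algebraMap (RR k) (QQ k) (A 0) = c ∧ algebraMap (RR k) (QQ k) (A 1) = c * x ∧
      algebraMap (RR k) (QQ k) (A 2) = c * y := by
    refine ⟨?_, hA 1, hA 2⟩
    have := hA 0
    simpa using this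
  have hB' : algebraMap (RR k) (QQ k) (B 0) = e ∧ algebraMap (RR k) (QQ k) (B 1) = e * z ∧
      algebraMap (RR k) (QQ k) (B 2) = e * w := by
    refine ⟨?_, hB 1, hB 2⟩
    have := hB 0
    simpa using this
  obtain ⟨a0, a1, a2⟩ := hA'
  obtain ⟨b0, b1, b2⟩ := hB'
  have hA0 : A 0 ≠ 0 := by
    intro h
    rw [h, map_zero] at a0
    exact hc a0.symm
  have hB0 : B 0 ≠ 0 := by
    intro h
    rw [h, map_zero] at b0
    exact he b0.symm
  have eAB : A 0 * B 0 ^ 2 + A 1 * B 1 ^ 2 + A 2 * B 2 ^ 2 = 0 := by
    apply hinj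
    simp only [map_add, map_mul, map_pow, map_zero, a0, a1, a2, b0, b1, b2]
    linear_combination c * e ^ 2 * h2
  have eBA : B 0 * A 0 ^ 2 + B 1 * A 1 ^ 2 + B 2 * A 2 ^ 2 = 0 := by
    apply hinj
    simp only [map_add, map_mul, map_pow, map_zero, a0, a1, a2, b0, b1, b2]
    linear_combination e * c ^ 2 * h1
  choose a ha using fun i => crs_rep i eAB hcB hB0
  choose b hb using fun i => crs_rep i eBA hcA hA0
  obtain ⟨jA, hjA, hmA⟩ := exists_max A hA0
  obtain ⟨jB, hjB, hmB⟩ := exists_max B hB0
  have hcase : (∀ i, a i = 0) ∨ (∀ i, b i = 0) := by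
    by_contra hcon
    push Not at hcon
    obtain ⟨⟨i, hi⟩, ⟨i', hi'⟩⟩ := hcon
    have g1 := deg_ineq i (ha i) hi hmA hjB
    have g2 := deg_ineq i' (hb i') hi' hmB hjA
    omega
  -- if the multipliers vanish, the ratios are constants
  have ratio : ∀ (C : Fin 3 → RR k) (f p q : QQ k) (hf : f ≠ 0) (c0 : algebraMap (RR k) (QQ k) (C 0) = f)
      (c1 : algebraMap (RR k) (QQ k) (C 1) = f * p) (c2 : algebraMap (RR k) (QQ k) (C 2) = f * q) (i : Fin 2)
      (hz : ∀ j, crs i C j = 0), D i p = 0 ∧ D i q = 0 := by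
    intro C f p q hf c0 c1 c2 i hz
    have g2 := hz 2
    have g1 := hz 1
    simp only [crs, Matrix.cons_val_one, Matrix.cons_val_zero, Matrix.cons_val] at g1 g2
    have g1' := congrArg (algebraMap (RR k) (QQ k)) g1
    have g2' := congrArg (algebraMap (RR k) (QQ k)) g2
    rw [map_sub, map_mul, map_mul, map_zero, ← hD, ← hD, c0, c2, Derivation.leibniz, smul_eq_mul,
      smul_eq_mul] at g1'
    rw [map_sub, map_mul, map_mul, map_zero, ← hD, ← hD, c0, c1, Derivation.leibniz, smul_eq_mul,
      smul_eq_mul] at g2'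
    constructor
    · have : f ^ 2 * D i p = 0 := by linear_combination g2'
      exact (mul_eq_zero.1 this).resolve_left (pow_ne_zero 2 hf)
    · have : f ^ 2 * D i q = 0 := by linear_combination -g1'
      exact (mul_eq_zero.1 this).resolve_left (pow_ne_zero 2 hf)
  -- the relation between the derivatives of the other two
  have finish : ∀ (p q r s : QQ k) (hr : 1 + p ^ 2 * r + q ^ 2 * s = 0)
      (hg : IntermediateField.adjoin k {p, q, r, s} = ⊤) (hp : ∀ i, D i p = 0)
      (hq : ∀ i, D i q = 0), False := by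
    intro p q r s hr hg hp hq
    have hrel : ∀ i, p ^ 2 * D i r + q ^ 2 * D i s = 0 := by
      intro i
      have := congrArg (D i) hr
      simp only [map_add, map_zero, Derivation.leibniz, Derivation.leibniz_pow, hp, hq,
        Derivation.map_one_eq_zero, smul_eq_mul, nsmul_eq_mul, mul_zero, add_zero, zero_add] at this
      exact this
    by_cases hq0 : q = 0
    · have hp0 : p ≠ 0 := by
        rintro rfl
        rw [hq0] at hr
        norm_num at hr
      refine half D _ hDu (x := p) (y := q) (z := s) (w := r) (α := q ^ 2) (β := p ^ 2) ?_ hp hq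
        (pow_ne_zero 2 hp0) (fun i => by linear_combination hrel i)
      rw [← hg]
      congr 1
      ext t
      simp only [Set.mem_insert_iff, Set.mem_singleton_iff]
      tauto
    · exact half D _ hDu hg hp hq (pow_ne_zero 2 hq0) hrel
  rcases hcase with h | h
  · have hz : ∀ i j, crs i A j = 0 := fun i j => by rw [ha, h, zero_mul]
    have hr := fun i => ratio A c x y hc a0 a1 a2 i (hz i)
    exact finish x y z w h1 hgen (fun i => (hr i).1) (fun i => (hr i).2)
  · have hz : ∀ i j, crs i B j = 0 := fun i j => by rw [hb, h, zero_mul]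
    have hr := fun i => ratio B e z w he b0 b1 b2 i (hz i)
    refine finish z w x y (by linear_combination h2) ?_ (fun i => (hr i).1) (fun i => (hr i).2)
    rw [← hgen]
    congr 1
    ext t
    simp only [Set.mem_insert_iff, Set.mem_singleton_iff]
    tauto

end main

end Pool.Agent.R863.DK
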