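import Mathlib
import Pool.Agent.R863.DK.Irred
import Pool.Agent.R863.DK.NonRat

set_option autoImplicit false

open MvPolynomial

namespace Pool.Agent.R863.DK

section

variable {k : Type*} [Field k]

theorem mem_aff_surface (a : Fin 2 ⊕ Fin 2 → k) : a ∈ affPart (surface k) ↔
    1 + a (Sum.inl 0) ^ 2 * a (Sum.inr 0) + a (Sum.inl 1) ^ 2 * a (Sum.inr 1) = 0 ∧
    1 + a (Sum.inl 0) * a (Sum.inr 0) ^ 2 + a (Sum.inl 1) * a (Sum.inr 1) ^ 2 = 0 := by
  unfold affPart aff
  rw [Set.mem_ofPred_eq, mem_surface_mk]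
  simp

/-- general points of the surface -/
theorem exists_pt [IsAlgClosed k] [CharP k 2] (u v : k) (hv : v ≠ 0)
    (hu : u * (u ^ 3 + v ^ 3) ≠ 0) : ∃ a ∈ affPart (surface k),
      a (Sum.inl 0) = u ∧ a (Sum.inl 1) = v := by
  have t2 : (2 : k) = 0 := two_zero
  obtain ⟨y, hy⟩ := IsAlgClosed.exists_pow_nat_eq ((1 + v ^ 3) / (u * (u ^ 3 + v ^ 3))) (n := 2)
    (by norm_num)
  refine ⟨Sum.elim ![u, v] ![y, (1 + u ^ 2 * y) / v ^ 2], ?_, rfl, rfl⟩
  rw [mem_aff_surface]
  simp only [Sum.elim_inl, Sum.elim_inr, Matrix.cons_val_zero, Matrix.cons_val_one]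
  have hy' : y ^ 2 * (u * (u ^ 3 + v ^ 3)) = 1 + v ^ 3 := by
    rw [hy]
    exact div_mul_cancel₀ _ hu
  constructor
  · field_simp
    linear_combination (1 + u ^ 2 * y) * t2
  · field_simp
    linear_combination hy' + (1 + u ^ 2 * y + v ^ 3) * t2

end

section

variable {k : Type*} [Field k] [IsAlgClosed k] [CharP k 2]

instance prime_surface : (affIdeal (surface k)).IsPrime := by
  refine affIdeal_prime irred_surface ?_
  have h : ∃ s : Fin 2 → k, eval s (X 1 * (X 0 * (X 0 ^ 3 + X 1 ^ 3)) : MvPolynomial (Fin 2) k) ≠ 0 := by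
    by_contra hcon
    push Not at hcon
    have h1 : (X 1 * (X 0 * (X 0 ^ 3 + X 1 ^ 3)) : MvPolynomial (Fin 2) k) = 0 :=
      MvPolynomial.funext fun s => by rw [hcon, map_zero]
    have h2 : (X 0 ^ 3 + X 1 ^ 3 : MvPolynomial (Fin 2) k) ≠ 0 := by
      intro h
      have := congrArg (eval ![(1 : k), 0]) h
      simp at this
    exact (mul_ne_zero (X_ne_zero 1) (mul_ne_zero (X_ne_zero 0) h2)) h1
  obtain ⟨s, hs⟩ := h
  simp only [map_mul, map_add, map_pow, eval_X] at hs
  obtain ⟨a, ha, _⟩ := exists_pt (s 0) (s 1) (left_ne_zero_of_mul hs) (right_ne_zero_of_mul hs)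
  exact ⟨a, ha⟩

theorem indep_surface : AlgebraicIndependent k
    ![coord (surface k) (Sum.inl 0), coord (surface k) (Sum.inl 1)] := by
  rw [algebraicIndependent_iff]
  intro p hp
  have h1 : aeval (coord (surface k)) (rename Sum.inl p : MvPolynomial (Fin 2 ⊕ Fin 2) k) = 0 := by
    rw [aeval_rename, ← hp]
    congr 2
    funext i
    fin_cases i <;> rfl
  rw [aeval_coord_eq_zero_iff] at h1
  have h2 : p * (X 1 * (X 0 * (X 0 ^ 3 + X 1 ^ 3))) = 0 := by
    apply MvPolynomial.funext
    intro s
    rw [map_zero, map_mul]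
    by_cases hs : eval s (X 1 * (X 0 * (X 0 ^ 3 + X 1 ^ 3)) : MvPolynomial (Fin 2) k) = 0
    · rw [hs, mul_zero]
    · simp only [map_mul, map_add, map_pow, eval_X] at hs
      obtain ⟨a, ha, ha0, ha1⟩ := exists_pt (s 0) (s 1) (left_ne_zero_of_mul hs)
        (right_ne_zero_of_mul hs)
      have h3 := h1 a ha
      rw [eval_rename] at h3
      have h4 : a ∘ Sum.inl = s := by
        funext i
        fin_cases i
        · exact ha0
        · exact ha1
      rw [h4] at h3
      rw [h3, zero_mul]
  have h3 : (X 0 ^ 3 + X 1 ^ 3 : MvPolynomial (Fin 2) k) ≠ 0 := by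
    intro h
    have := congrArg (eval ![(1 : k), 0]) h
    simp at this
  exact (mul_eq_zero.1 h2).resolve_right (mul_ne_zero (X_ne_zero 1)
    (mul_ne_zero (X_ne_zero 0) h3))

/-- the equations in the function field -/
theorem rel_surface :
    1 + coord (surface k) (Sum.inl 0) ^ 2 * coord (surface k) (Sum.inr 0) +
      coord (surface k) (Sum.inl 1) ^ 2 * coord (surface k) (Sum.inr 1) = 0 ∧
    1 + coord (surface k) (Sum.inl 0) * coord (surface k) (Sum.inr 0) ^ 2 +
      coord (surface k) (Sum.inl 1) * coord (surface k) (Sum.inr 1) ^ 2 = 0 := by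
  constructor
  · have h := (aeval_coord_eq_zero_iff (Z := surface k) (1 + X (Sum.inl 0) ^ 2 * X (Sum.inr 0) +
      X (Sum.inl 1) ^ 2 * X (Sum.inr 1))).2 fun a ha => by
        have := ((mem_aff_surface a).1 ha).1
        simpa using this
    simpa using h
  · have h := (aeval_coord_eq_zero_iff (Z := surface k) (1 + X (Sum.inl 0) * X (Sum.inr 0) ^ 2 +
      X (Sum.inl 1) * X (Sum.inr 1) ^ 2)).2 fun a ha => by
        have := ((mem_aff_surface a).1 ha).2
        simpa using this
    simpa using h

omit [IsAlgClosed k] [CharP k 2] in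
theorem range_coord (Z : Set (P2 k × P2 k)) : Set.range (coord Z) =
    {coord Z (Sum.inl 0), coord Z (Sum.inl 1), coord Z (Sum.inr 0), coord Z (Sum.inr 1)} := by
  ext t
  simp only [Set.mem_range, Set.mem_insert_iff, Set.mem_singleton_iff]
  constructor
  · rintro ⟨i | i, rfl⟩ <;> fin_cases i <;> simp
  · rintro (rfl | rfl | rfl | rfl)
    · exact ⟨_, rfl⟩
    · exact ⟨_, rfl⟩
    · exact ⟨_, rfl⟩
    · exact ⟨_, rfl⟩

/-- two algebraically independent elements generating the function field give a solution of the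
equations generating the field of rational functions in two variables -/
theorem not_rational (f g : FunField (surface k)) (h : AlgebraicIndependent k ![f, g]) :
    IntermediateField.adjoin k {f, g} ≠ ⊤ := by
  intro htop
  have hr : Set.range ![f, g] = {f, g} := by
    rw [Matrix.range_cons, Matrix.range_cons, Matrix.range_empty, Set.union_empty]
    rfl
  let e : FractionRing (MvPolynomial (Fin 2) k) ≃ₐ[k] FunField (surface k) :=
    h.aevalEquivField.trans ((IntermediateField.equivOfEq (by rw [hr, htop])).trans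
      IntermediateField.topEquiv)
  obtain ⟨h1, h2⟩ := rel_surface (k := k)
  have g1 := congrArg e.symm h1
  have g2 := congrArg e.symm h2
  simp only [map_add, map_mul, map_pow, map_one, map_zero] at g1 g2
  refine nonrat _ _ _ _ g1 g2 ?_
  have h3 := adjoin_coord (Z := surface k)
  rw [range_coord] at h3
  have h4 := IntermediateField.adjoin_map k ({coord (surface k) (Sum.inl 0),
    coord (surface k) (Sum.inl 1), coord (surface k) (Sum.inr 0),
    coord (surface k) (Sum.inr 1)} : Set (FunField (surface k))) e.symm.toAlgHom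
  rw [h3] at h4
  simp only [Set.image_insert_eq, Set.image_singleton] at h4
  refine h4.symm.trans ?_
  rw [eq_top_iff]
  intro z _
  exact ⟨e z, trivial, e.symm_apply_apply z⟩

/-- `y₁/y₀` is not in `k(x₁/x₀, x₂/x₀)` -/
theorem y_notMem : coord (surface k) (Sum.inr 0) ∉ IntermediateField.adjoin k
    {coord (surface k) (Sum.inl 0), coord (surface k) (Sum.inl 1)} := by
  intro hmem
  have t2 : (2 : FunField (surface k)) = 0 := by
    have h : algebraMap k (FunField (surface k)) 2 = 0 := by rw [two_zero, map_zero]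
    rwa [map_ofNat] at h
  have t2' : (2 : MvPolynomial (Fin 2) k) = 0 := two_eq_zero
  have hr : Set.range ![coord (surface k) (Sum.inl 0), coord (surface k) (Sum.inl 1)] =
      {coord (surface k) (Sum.inl 0), coord (surface k) (Sum.inl 1)} := by
    rw [Matrix.range_cons, Matrix.range_cons, Matrix.range_empty, Set.union_empty]
    rfl
  rw [← hr, IntermediateField.mem_adjoin_range_iff] at hmem
  obtain ⟨r, s, hrs⟩ := hmem
  obtain ⟨h1, h2⟩ := rel_surface (k := k)
  have hind := indep_surface (k := k)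
  have e0 : aeval ![coord (surface k) (Sum.inl 0), coord (surface k) (Sum.inl 1)]
      (X 0 : MvPolynomial (Fin 2) k) = coord (surface k) (Sum.inl 0) := by
    rw [aeval_X]
    rfl
  have e1 : aeval ![coord (surface k) (Sum.inl 0), coord (surface k) (Sum.inl 1)]
      (X 1 : MvPolynomial (Fin 2) k) = coord (surface k) (Sum.inl 1) := by
    rw [aeval_X]
    rfl
  set x := coord (surface k) (Sum.inl 0)
  set y := coord (surface k) (Sum.inl 1)
  set z := coord (surface k) (Sum.inr 0)
  set w := coord (surface k) (Sum.inr 1)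
  set φ := (aeval ![x, y] : MvPolynomial (Fin 2) k →ₐ[k] FunField (surface k)) with hφ
  have hinj : Function.Injective φ := hind
  -- the equation for `z`
  have hz : z ^ 2 * (x * (x ^ 3 + y ^ 3)) = 1 + y ^ 3 := by
    have hyw : y ^ 2 * w = 1 + x ^ 2 * z := by linear_combination h1 - (1 + x ^ 2 * z) * t2
    have : 1 + y ^ 3 + z ^ 2 * (x * (x ^ 3 + y ^ 3)) = 0 := by
      linear_combination y ^ 3 * h2 - (y ^ 2 * w + (1 + x ^ 2 * z)) * hyw - x ^ 2 * z * t2
    linear_combination this - (1 + y ^ 3) * t2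
  by_cases hs : φ s = 0
  · rw [hs, div_zero] at hrs
    rw [hrs] at hz
    have h3 : φ (1 + X 1 ^ 3) = φ 0 := by
      rw [map_add, map_one, map_pow, e1, map_zero]
      linear_combination -hz
    have h4 := congrArg (eval ![(0 : k), 0]) (hinj h3)
    simp at h4
  · have h3 : φ (s ^ 2 * (1 + X 1 ^ 3)) = φ (r ^ 2 * (X 0 * (X 0 ^ 3 + X 1 ^ 3))) := by
      simp only [map_mul, map_add, map_one, map_pow, e0, e1]
      rw [← hz, hrs]
      field_simp
    have h4 := hinj h3
    have h5 := congrArg (pderiv 0) h4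
    simp only [Derivation.leibniz, Derivation.leibniz_pow, map_add, smul_eq_mul, nsmul_eq_mul,
      pderiv_X_self, pderiv_one, Nat.cast_ofNat, t2', zero_mul, mul_zero, zero_add, add_zero,
      pderiv_X_of_ne (show (1 : Fin 2) ≠ 0 by decide), mul_one] at h5
    have h6 : r ^ 2 * X 1 ^ 3 = 0 := by
      linear_combination -h5 - (r ^ 2 * 2 * X 0 ^ 3) * t2'
    have h7 : r = 0 := by
      have := (mul_eq_zero.1 h6).resolve_right (pow_ne_zero 3 (X_ne_zero 1))
      exact pow_eq_zero_iff (two_ne_zero) |>.1 this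
    rw [h7] at h4
    have h8 : s ^ 2 * (1 + X 1 ^ 3) = 0 := by
      rw [h4]
      ring
    rcases mul_eq_zero.1 h8 with h | h
    · apply hs
      rw [pow_eq_zero_iff (two_ne_zero)] at h
      rw [h, map_zero]
    · have h4 := congrArg (eval ![(0 : k), 0]) h
      simp at h4

end

end Pool.Agent.R863.DK
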