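import Mathlib
import Pool.Agent.R863.DK.Field

set_option autoImplicit false

open MvPolynomial

namespace Pool.Agent.R863.DK

variable {k : Type*} [Field k] [IsAlgClosed k] [CharP k 2]

theorem finrank_two : Module.finrank (IntermediateField.adjoin k
    {coord (surface k) (Sum.inl 0), coord (surface k) (Sum.inl 1)}) (FunField (surface k)) = 2 := by
  obtain ⟨h1, h2⟩ := rel_surface (k := k)
  have hy := y_notMem (k := k)
  have hind := indep_surface (k := k)
  have t2 : (2 : FunField (surface k)) = 0 := by
    have h : algebraMap k (FunField (surface k)) 2 = 0 := by rw [two_zero, map_zero]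
    rwa [map_ofNat] at h
  have htop := adjoin_coord (Z := surface k)
  rw [range_coord] at htop
  set x := coord (surface k) (Sum.inl 0)
  set y := coord (surface k) (Sum.inl 1)
  set z := coord (surface k) (Sum.inr 0)
  set w := coord (surface k) (Sum.inr 1)
  set M := IntermediateField.adjoin k {x, y} with hM
  have hxM : x ∈ M := IntermediateField.subset_adjoin _ _ (Set.mem_insert _ _)
  have hyM : y ∈ M := IntermediateField.subset_adjoin _ _ (Set.mem_insert_of_mem _ rfl)
  have hφ : ∀ p : MvPolynomial (Fin 2) k, p ≠ 0 → aeval ![x, y] p ≠ 0 := by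
    intro p hp h
    exact hp ((injective_iff_map_eq_zero _).1 hind p h)
  have hy0 : y ≠ 0 := by
    have h := hφ (X 1) (X_ne_zero 1)
    rw [aeval_X] at h
    exact h
  have hr0 : x * (x ^ 3 + y ^ 3) ≠ 0 := by
    have h3 : (X 0 ^ 3 + X 1 ^ 3 : MvPolynomial (Fin 2) k) ≠ 0 := by
      intro h
      have := congrArg (eval ![(1 : k), 0]) h
      simp at this
    have h := hφ (X 0 * (X 0 ^ 3 + X 1 ^ 3)) (mul_ne_zero (X_ne_zero 0) h3)
    simpa using h
  have hyw : y ^ 2 * w = 1 + x ^ 2 * z := by linear_combination h1 - (1 + x ^ 2 * z) * t2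
  have hz : z ^ 2 * (x * (x ^ 3 + y ^ 3)) = 1 + y ^ 3 := by
    have : 1 + y ^ 3 + z ^ 2 * (x * (x ^ 3 + y ^ 3)) = 0 := by
      linear_combination y ^ 3 * h2 - (y ^ 2 * w + (1 + x ^ 2 * z)) * hyw - x ^ 2 * z * t2
    linear_combination this - (1 + y ^ 3) * t2
  -- the field is generated by `z`
  have hgen : IntermediateField.adjoin M {z} = ⊤ := by
    rw [← IntermediateField.restrictScalars_eq_top_iff (K := k), hM,
      IntermediateField.adjoin_adjoin_left, eq_top_iff, ← htop, IntermediateField.adjoin_le_iff]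
    have hx' : x ∈ IntermediateField.adjoin k ({x, y} ∪ {z} : Set (FunField (surface k))) :=
      IntermediateField.subset_adjoin _ _ (by simp)
    have hy' : y ∈ IntermediateField.adjoin k ({x, y} ∪ {z} : Set (FunField (surface k))) :=
      IntermediateField.subset_adjoin _ _ (by simp)
    have hz' : z ∈ IntermediateField.adjoin k ({x, y} ∪ {z} : Set (FunField (surface k))) :=
      IntermediateField.subset_adjoin _ _ (by simp)
    rintro t (rfl | rfl | rfl | rfl)
    · exact hx'
    · exact hy'
    · exact hz'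
    · have hw : w = (1 + x ^ 2 * z) / y ^ 2 := by
        rw [eq_div_iff (pow_ne_zero 2 hy0)]
        linear_combination hyw
      change w ∈ _
      rw [hw]
      exact div_mem (add_mem (one_mem _) (mul_mem (pow_mem hx' 2) hz')) (pow_mem hy' 2)
  -- the minimal polynomial
  let r : M := ⟨(1 + y ^ 3) / (x * (x ^ 3 + y ^ 3)), div_mem (add_mem (one_mem _) (pow_mem hyM 3))
    (mul_mem hxM (add_mem (pow_mem hxM 3) (pow_mem hyM 3)))⟩
  have hroot : Polynomial.aeval z (Polynomial.X ^ 2 - Polynomial.C r : Polynomial M) = 0 := by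
    rw [map_sub, map_pow, Polynomial.aeval_X, Polynomial.aeval_C]
    change z ^ 2 - (1 + y ^ 3) / (x * (x ^ 3 + y ^ 3)) = 0
    rw [← hz, mul_div_assoc, div_self hr0, mul_one, sub_self]
  have hmonic : (Polynomial.X ^ 2 - Polynomial.C r : Polynomial M).Monic :=
    Polynomial.monic_X_pow_sub_C r two_ne_zero
  have hint : IsIntegral M z := ⟨_, hmonic, hroot⟩
  have hdeg : (minpoly M z).natDegree ≤ 2 := by
    have h := Polynomial.natDegree_le_of_dvd (minpoly.dvd M z hroot) hmonic.ne_zero
    rwa [Polynomial.natDegree_X_pow_sub_C] at h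
  have hdeg1 : (minpoly M z).natDegree ≠ 1 := by
    intro h
    rw [minpoly.natDegree_eq_one_iff] at h
    obtain ⟨m, hm⟩ := h
    apply hy
    rw [← hm]
    exact m.2
  have hdeg0 := minpoly.natDegree_pos hint
  have h := IntermediateField.adjoin.finrank hint
  rw [hgen, IntermediateField.finrank_top'] at h
  rw [h]
  omega

theorem least_surface : IsLeast (mapDegrees k (CoordRing (surface k))) 2 := by
  refine ⟨⟨by norm_num, _, _, indep_surface, finrank_two⟩, ?_⟩
  rintro d ⟨hd, f, g, hfg, hdeg⟩
  by_contra hcon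
  have hd1 : d = 1 := by omega
  rw [hd1, pairDegree, IntermediateField.finrank_eq_one_iff_eq_top] at hdeg
  exact not_rational f g hfg hdeg

end Pool.Agent.R863.DK
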