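import Mathlib
import Pool.Agent.R863.DK.Degree

set_option autoImplicit false

open MvPolynomial

namespace Pool.Agent.R863.DK

section closure

variable {k : Type*} [Field k]

theorem subset_zclosure (B : Set (P2 k × P2 k)) : B ⊆ zclosure B := fun z hz _ _ _ _ h => h z hz

theorem zclosure_idem (B : Set (P2 k × P2 k)) : zclosure (zclosure B) = zclosure B := by
  apply Set.Subset.antisymm
  · intro z hz G m n hG h
    exact hz G m n hG fun w hw => hw G m n hG h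
  · exact subset_zclosure _

theorem isIrred_zclosure {B : Set (P2 k × P2 k)} (hne : B.Nonempty)
    (h : ∀ (G H : BiPoly k) (m n m' n' : ℕ), IsBihom G m n → IsBihom H m' n' →
      (∀ z ∈ B, VanishesAt G z ∨ VanishesAt H z) →
        (∀ z ∈ B, VanishesAt G z) ∨ (∀ z ∈ B, VanishesAt H z)) : IsIrred (zclosure B) := by
  refine ⟨zclosure_idem B, hne.mono (subset_zclosure B), ?_⟩
  intro G H m n m' n' hG hH hGH
  rcases h G H m n m' n' hG hH fun z hz => hGH z (subset_zclosure B hz) with h1 | h1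
  · exact Or.inl fun z hz => hz G m n hG h1
  · exact Or.inr fun z hz => hz H m' n' hH h1

end closure

section moore

variable {k : Type*} [Field k]

/-- the Moore determinant times `l₂` -/
noncomputable def Phi (k : Type*) [Field k] : MvPolynomial (Fin 3) k :=
  X 2 * (X 0 * X 1 ^ 4 * X 2 ^ 16 - X 0 * X 2 ^ 4 * X 1 ^ 16 - X 1 * X 0 ^ 4 * X 2 ^ 16 +
    X 1 * X 2 ^ 4 * X 0 ^ 16 + X 2 * X 0 ^ 4 * X 1 ^ 16 - X 2 * X 1 ^ 4 * X 0 ^ 16)

theorem Phi_homog : (Phi k).IsHomogeneous 22 := by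
  have h : ∀ a b c : Fin 3, (X a * X b ^ 4 * X c ^ 16 : MvPolynomial (Fin 3) k).IsHomogeneous 21 :=
    fun a b c => ((isHomogeneous_X k a).mul (isHomogeneous_X_pow b 4)).mul
      (isHomogeneous_X_pow c 16)
  exact (isHomogeneous_X k 2).mul ((((((h 0 1 2).sub (h 0 2 1)).sub (h 1 0 2)).add
    (h 1 2 0)).add (h 2 0 1)).sub (h 2 1 0))

theorem Phi_ne_zero : Phi k ≠ 0 := by
  intro h
  have h1 := congrArg (aeval ![1, Polynomial.X, Polynomial.X ^ 2] :
    MvPolynomial (Fin 3) k → Polynomial k) h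
  simp only [Phi, map_sub, map_add, map_mul, map_pow, aeval_X, map_zero, Matrix.cons_val_one,
    Matrix.cons_val, Matrix.cons_val_zero, one_pow, mul_one, one_mul, ← pow_mul, ← pow_add] at h1
  have h3 : (Polynomial.X ^ 2 * (Polynomial.X ^ 4 * Polynomial.X ^ (2 * 16) -
      Polynomial.X ^ (2 * 4) * Polynomial.X ^ 16 - Polynomial.X * Polynomial.X ^ (2 * 16) +
      Polynomial.X * Polynomial.X ^ (2 * 4) + Polynomial.X ^ 2 * Polynomial.X ^ 16 -
      Polynomial.X ^ 2 * Polynomial.X ^ 4 : Polynomial k)) =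
      Polynomial.X ^ 38 - Polynomial.X ^ 26 - Polynomial.X ^ 35 + Polynomial.X ^ 11 +
        Polynomial.X ^ 20 - Polynomial.X ^ 8 := by ring
  have h4 : (Polynomial.X ^ 38 - Polynomial.X ^ 26 - Polynomial.X ^ 35 + Polynomial.X ^ 11 +
        Polynomial.X ^ 20 - Polynomial.X ^ 8 : Polynomial k) = 0 := by
    rw [← h3]
    simpa only [← pow_mul, ← pow_add] using h1
  have h5 := congrArg (fun p => Polynomial.coeff p 38) h4
  simp [Polynomial.coeff_X_pow] at h5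

theorem eval_Phi (l : Fin 3 → k) : eval l (Phi k) =
    l 2 * (l 0 * l 1 ^ 4 * l 2 ^ 16 - l 0 * l 2 ^ 4 * l 1 ^ 16 - l 1 * l 0 ^ 4 * l 2 ^ 16 +
    l 1 * l 2 ^ 4 * l 0 ^ 16 + l 2 * l 0 ^ 4 * l 1 ^ 16 - l 2 * l 1 ^ 4 * l 0 ^ 16) := by
  simp [Phi]

variable [CharP k 2]

/-- a general line contains no point of `ℙ²(𝔽₄)` -/
theorem cx_ne_zero_of_Phi {l : Fin 3 → k} (hl : eval l (Phi k) ≠ 0) {s : Fin 3 → k} (hs : s ≠ 0)
    (h : l 0 * s 0 ^ 2 + l 1 * s 1 ^ 2 + l 2 * s 2 ^ 2 = 0) : cx s s ≠ 0 := by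
  intro hc
  have t2 : (2 : k) = 0 := two_zero
  have h4 : ∀ a b : k, (a + b) ^ 4 = a ^ 4 + b ^ 4 := by
    intro a b
    linear_combination (2 * a ^ 3 * b + 3 * a ^ 2 * b ^ 2 + 2 * a * b ^ 3) * t2
  have h43 : ∀ a b c : k, (a + b + c) ^ 4 = a ^ 4 + b ^ 4 + c ^ 4 := by
    intro a b c
    rw [h4, h4]
  have e0 := congrFun hc 0
  have e1 := congrFun hc 1
  have e2 := congrFun hc 2
  simp only [cx_zero, cx_one, cx_two, Pi.zero_apply] at e0 e1 e2
  have hij : ∀ i j, s i ^ 4 * s j = s j ^ 4 * s i := by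
    intro i j
    fin_cases i <;> fin_cases j <;> simp <;>
      first | linear_combination e0 | linear_combination e1 | linear_combination e2 |
        linear_combination -e0 | linear_combination -e1 | linear_combination -e2
  obtain ⟨j, hj⟩ := Function.ne_iff.1 hs
  rw [Pi.zero_apply] at hj
  have hc0 : s j ^ 3 ≠ 0 := pow_ne_zero 3 hj
  have hci : ∀ i, s i ^ 4 = s j ^ 3 * s i := by
    intro i
    apply mul_right_cancel₀ hj
    rw [hij i j]
    ring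
  have hv : ∀ i, (s i ^ 2) ^ 4 = (s j ^ 3) ^ 2 * s i ^ 2 := by
    intro i
    linear_combination (s i ^ 4 + s j ^ 3 * s i) * hci i
  have g4 : l 0 ^ 4 * s 0 ^ 2 + l 1 ^ 4 * s 1 ^ 2 + l 2 ^ 4 * s 2 ^ 2 = 0 := by
    have h5 := congrArg (fun t => t ^ 4) h
    simp only [h43, mul_pow] at h5
    have h6 : (s j ^ 3) ^ 2 * (l 0 ^ 4 * s 0 ^ 2 + l 1 ^ 4 * s 1 ^ 2 + l 2 ^ 4 * s 2 ^ 2) = 0 := by
      linear_combination h5 - l 0 ^ 4 * hv 0 - l 1 ^ 4 * hv 1 - l 2 ^ 4 * hv 2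
    exact (mul_eq_zero.1 h6).resolve_left (pow_ne_zero 2 hc0)
  have g16 : l 0 ^ 16 * s 0 ^ 2 + l 1 ^ 16 * s 1 ^ 2 + l 2 ^ 16 * s 2 ^ 2 = 0 := by
    have h5 := congrArg (fun t => t ^ 4) g4
    simp only [h43, mul_pow] at h5
    have h6 : (s j ^ 3) ^ 2 * (l 0 ^ 16 * s 0 ^ 2 + l 1 ^ 16 * s 1 ^ 2 + l 2 ^ 16 * s 2 ^ 2) = 0 := by
      linear_combination h5 - l 0 ^ 16 * hv 0 - l 1 ^ 16 * hv 1 - l 2 ^ 16 * hv 2
    exact (mul_eq_zero.1 h6).resolve_left (pow_ne_zero 2 hc0)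
  apply hl
  rw [eval_Phi]
  refine mul_eq_zero_of_right _ ?_
  have hj2 : s j ^ 2 ≠ 0 := pow_ne_zero 2 hj
  apply (mul_eq_zero.1 (?_ : s j ^ 2 * _ = 0)).resolve_left hj2
  fin_cases j
  · change s 0 ^ 2 * _ = 0
    linear_combination (l 1 ^ 4 * l 2 ^ 16 - l 2 ^ 4 * l 1 ^ 16) * h -
      (l 1 * l 2 ^ 16 - l 2 * l 1 ^ 16) * g4 + (l 1 * l 2 ^ 4 - l 2 * l 1 ^ 4) * g16
  · change s 1 ^ 2 * _ = 0
    linear_combination -(l 0 ^ 4 * l 2 ^ 16 - l 2 ^ 4 * l 0 ^ 16) * h +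
      (l 0 * l 2 ^ 16 - l 2 * l 0 ^ 16) * g4 - (l 0 * l 2 ^ 4 - l 2 * l 0 ^ 4) * g16
  · change s 2 ^ 2 * _ = 0
    linear_combination (l 0 ^ 4 * l 1 ^ 16 - l 1 ^ 4 * l 0 ^ 16) * h -
      (l 0 * l 1 ^ 16 - l 1 * l 0 ^ 16) * g4 + (l 0 * l 1 ^ 4 - l 1 * l 0 ^ 4) * g16

omit [CharP k 2] in
/-- a general line is not defined over `𝔽₄` -/
theorem not_F4 {l : Fin 3 → k} (hl : eval l (Phi k) ≠ 0) {α β : k} (hα : α ^ 2 * l 2 = l 0)
    (hβ : β ^ 2 * l 2 = l 1) : ¬ (α ^ 4 = α ∧ β ^ 4 = β) := by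
  rintro ⟨h1, h2⟩
  apply hl
  rw [eval_Phi]
  have h0 : l 0 ^ 4 = l 2 ^ 3 * l 0 := by
    rw [← hα]
    linear_combination (l 2 ^ 4 * α ^ 4 + l 2 ^ 4 * α) * h1
  have h1 : l 1 ^ 4 = l 2 ^ 3 * l 1 := by
    rw [← hβ]
    linear_combination (l 2 ^ 4 * β ^ 4 + l 2 ^ 4 * β) * h2
  have g0 : l 0 ^ 16 = l 2 ^ 15 * l 0 := by
    linear_combination (l 0 ^ 12 + l 0 ^ 9 * l 2 ^ 3 + l 0 ^ 6 * l 2 ^ 6 + l 0 ^ 3 * l 2 ^ 9 +
      l 2 ^ 12) * h0
  have g1 : l 1 ^ 16 = l 2 ^ 15 * l 1 := by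
    linear_combination (l 1 ^ 12 + l 1 ^ 9 * l 2 ^ 3 + l 1 ^ 6 * l 2 ^ 6 + l 1 ^ 3 * l 2 ^ 9 +
      l 2 ^ 12) * h1
  rw [g0, g1, h0, h1]
  ring

end moore

section curve

variable {k : Type*} [Field k] [IsAlgClosed k] [CharP k 2]

/-- the linear form of a line -/
noncomputable def lin (l : Fin 3 → k) : BiPoly k := ∑ i, C (l i) * X (Sum.inl i)

omit [IsAlgClosed k] [CharP k 2] in
theorem isBihom_lin (l : Fin 3 → k) : IsBihom (lin l) 1 0 := by
  refine IsWeightedHomogeneous.sum _ _ _ fun i _ => ?_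
  exact (isBihom_X_inl (k := k) i).C_mul (l i)

omit [IsAlgClosed k] [CharP k 2] in
theorem eval_lin (l x y : Fin 3 → k) : eval (Sum.elim x y) (lin l) = ∑ i, l i * x i := by
  unfold lin
  rw [map_sum]
  simp

/-- the preimage of a line -/
def pre (l : Fin 3 → k) : Set (P2 k × P2 k) := {z | z ∈ surface k ∧ VanishesAt (lin l) z}

omit [IsAlgClosed k] [CharP k 2] in
theorem lineCurve_eq (l : Fin 3 → k) : lineCurve l = pre l := by
  have h0 : {z | z ∈ surface k ∧ ∑ i, l i * z.1.rep i = 0} = pre l := by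
    ext z
    unfold pre VanishesAt
    rw [Set.mem_ofPred_eq, Set.mem_ofPred_eq, eval_lin]
  unfold lineCurve
  rw [h0]
  apply Set.Subset.antisymm
  · intro z hz
    exact ⟨⟨hz (F₁ k) 2 1 isBihom_F₁ fun w hw => hw.1.1,
      hz (F₂ k) 1 2 isBihom_F₂ fun w hw => hw.1.2⟩, hz _ 1 0 (isBihom_lin l) fun w hw => hw.2⟩
  · exact subset_zclosure _

/-- the parametrization of the curve over a line -/
def sv {R : Type*} [CommRing R] (a b s t : R) : Fin 3 → R := ![s, t, a * s + b * t]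

omit [IsAlgClosed k] in
theorem sv_mem {l : Fin 3 → k} {α β : k} (hα : α ^ 2 * l 2 = l 0) (hβ : β ^ 2 * l 2 = l 1)
    (s t : k) : l 0 * sv α β s t 0 ^ 2 + l 1 * sv α β s t 1 ^ 2 + l 2 * sv α β s t 2 ^ 2 = 0 := by
  have t2 : (2 : k) = 0 := two_zero
  simp only [sv, Matrix.cons_val_zero, Matrix.cons_val_one, Matrix.cons_val]
  rw [← hα, ← hβ]
  linear_combination l 2 * (α ^ 2 * s ^ 2 + β ^ 2 * t ^ 2 + α * β * s * t) * t2

theorem pre_form {l : Fin 3 → k} (hl : eval l (Phi k) ≠ 0) {α β : k} (hα : α ^ 2 * l 2 = l 0)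
    (hβ : β ^ 2 * l 2 = l 1) {z : P2 k × P2 k} (hz : z ∈ pre l) :
    ∃ s t c : k, z.1.rep = (fun i => sv α β s t i ^ 2) ∧
      z.2.rep = c • cx (sv α β s t) (sv α β s t) := by
  have t2 : (2 : k) = 0 := two_zero
  have hl2 : l 2 ≠ 0 := by
    intro h
    apply hl
    rw [eval_Phi, h, zero_mul]
  obtain ⟨hz1, hz2⟩ := hz
  rw [mem_surface_iff] at hz1
  unfold VanishesAt at hz2
  rw [eval_lin, Fin.sum_univ_three] at hz2
  obtain ⟨s, hs⟩ := exists_sqrt z.1.rep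
  rw [← hs, ← hs, ← hs] at hz1 hz2
  obtain ⟨p4, p1⟩ := perp_of_mem hz1.1 hz1.2
  have h2 : s 2 = α * s 0 + β * s 1 := by
    have h3 : l 2 * (s 2 + (α * s 0 + β * s 1)) ^ 2 = 0 := by
      rw [← hα, ← hβ] at hz2
      linear_combination hz2 + l 2 * (s 2 * (α * s 0 + β * s 1) + α * s 0 * β * s 1) * t2
    have h4 := pow_eq_zero_iff (two_ne_zero) |>.1 ((mul_eq_zero.1 h3).resolve_left hl2)
    linear_combination h4 - (α * s 0 + β * s 1) * t2
  have hsv : s = sv α β (s 0) (s 1) := by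
    funext i
    fin_cases i
    · rfl
    · rfl
    · exact h2
  have hs0 : s ≠ 0 := by
    intro h
    apply rep_ne (z := z.1)
    funext i
    rw [← hs, h]
    simp
  have hc := cx_ne_zero_of_Phi hl hs0 hz2
  obtain ⟨c, hc'⟩ := eq_cx hc p4 p1
  refine ⟨s 0, s 1, c, ?_, ?_⟩
  · rw [← hsv]
    exact funext fun i => (hs i).symm
  · rw [← hsv]
    exact hc'

omit [IsAlgClosed k] in
theorem mk_mem_pre {l : Fin 3 → k} {α β : k} (hα : α ^ 2 * l 2 = l 0) (hβ : β ^ 2 * l 2 = l 1)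
    {s t : k} (hx : (fun i => sv α β s t i ^ 2) ≠ 0) (hc : cx (sv α β s t) (sv α β s t) ≠ 0) :
    (Projectivization.mk k _ hx, Projectivization.mk k _ hc) ∈ pre l := by
  refine ⟨?_, ?_⟩
  · rw [mem_surface_mk]
    exact mem_param
  · rw [vanishesAt_mk (isBihom_lin l), eval_lin, Fin.sum_univ_three]
    exact sv_mem hα hβ s t

/-- the parametrization by polynomials -/
noncomputable def parl (α β : k) : Fin 3 ⊕ Fin 3 → MvPolynomial (Fin 2) k :=
  Sum.elim (fun i => sv (C α) (C β) (X 0) (X 1) i ^ 2)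
    (cx (sv (C α) (C β) (X 0) (X 1)) (sv (C α) (C β) (X 0) (X 1)))

omit [IsAlgClosed k] [CharP k 2] in
theorem eval_parl (α β : k) (G : BiPoly k) (s : Fin 2 → k) :
    eval s (aeval (parl α β) G) = eval (Sum.elim (fun i => sv α β (s 0) (s 1) i ^ 2)
      (cx (sv α β (s 0) (s 1)) (sv α β (s 0) (s 1)))) G := by
  rw [← aeval_ev, ev_comp (aeval s : MvPolynomial (Fin 2) k →ₐ[k] k) (parl α β) G]
  have hf : (fun i => aeval s (parl α β i)) = Sum.elim (fun i => sv α β (s 0) (s 1) i ^ 2)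
      (cx (sv α β (s 0) (s 1)) (sv α β (s 0) (s 1))) := ?_
  · rw [hf]
  funext i
  rcases i with i | i
  · fin_cases i <;> simp [parl, sv]
  · fin_cases i <;> simp [parl, sv]

theorem irred_lineCurve {l : Fin 3 → k} (hl : eval l (Phi k) ≠ 0) {α β : k}
    (hα : α ^ 2 * l 2 = l 0) (hβ : β ^ 2 * l 2 = l 1) : IsIrred (lineCurve l) := by
  have hpt : ∀ s t : k, s ≠ 0 → (fun i => sv α β s t i ^ 2) ≠ 0 ∧
      cx (sv α β s t) (sv α β s t) ≠ 0 := by
    intro s t hs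
    refine ⟨fun h => ?_, cx_ne_zero_of_Phi hl (fun h => hs (congrFun h 0)) (sv_mem hα hβ s t)⟩
    have h0 := congrFun h 0
    exact hs (pow_eq_zero_iff (two_ne_zero) |>.1 h0)
  have h0 : lineCurve l = zclosure (pre l) := by
    rw [← lineCurve_eq]
    exact (zclosure_idem _).symm
  rw [h0]
  refine isIrred_zclosure ?_ ?_
  · obtain ⟨h1, h2⟩ := hpt 1 0 one_ne_zero
    exact ⟨_, mk_mem_pre hα hβ h1 h2⟩
  · intro G H m n m' n' hG hH h
    have key : aeval (parl α β) G * aeval (parl α β) H * X 0 = 0 := by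
      apply MvPolynomial.funext
      intro s
      rw [map_mul, map_mul, map_zero, eval_parl, eval_parl, eval_X]
      by_cases hs : s 0 = 0
      · rw [hs, mul_zero]
      · obtain ⟨h1, h2⟩ := hpt (s 0) (s 1) hs
        rcases h _ (mk_mem_pre hα hβ h1 h2) with h | h
        · rw [vanishesAt_mk hG] at h
          rw [h, zero_mul, zero_mul]
        · rw [vanishesAt_mk hH] at h
          rw [h, mul_zero, zero_mul]
    have fin : ∀ (G : BiPoly k) (m n : ℕ), IsBihom G m n → aeval (parl α β) G = 0 →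
        ∀ z ∈ pre l, VanishesAt G z := by
      intro G m n hG hG0 z hz
      obtain ⟨s, t, c, hx, hy⟩ := pre_form hl hα hβ hz
      unfold VanishesAt
      rw [hx, hy]
      have h' := eval_scale hG 1 c (fun i => sv α β s t i ^ 2) (cx (sv α β s t) (sv α β s t))
      have h'' := eval_parl α β G ![s, t]
      rw [hG0, map_zero] at h''
      simp only [Matrix.cons_val_zero, Matrix.cons_val_one] at h''
      rw [one_smul, ← h'', mul_zero] at h'
      exact h'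
    rcases mul_eq_zero.1 ((mul_eq_zero.1 key).resolve_right (X_ne_zero 0)) with h | h
    · exact Or.inl (fin G m n hG h)
    · exact Or.inr (fin H m' n' hH h)

end curve

end Pool.Agent.R863.DK
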