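import Mathlib
import Pool.Agent.R863.DK.Line

set_option autoImplicit false

open MvPolynomial

namespace Pool.Agent.R863.DK

section

variable {k : Type*} [Field k]

theorem mem_aff_line (l : Fin 3 → k) (a : Fin 2 ⊕ Fin 2 → k) : a ∈ affPart (lineCurve l) ↔
    (1 + a (Sum.inl 0) ^ 2 * a (Sum.inr 0) + a (Sum.inl 1) ^ 2 * a (Sum.inr 1) = 0 ∧
    1 + a (Sum.inl 0) * a (Sum.inr 0) ^ 2 + a (Sum.inl 1) * a (Sum.inr 1) ^ 2 = 0) ∧
    l 0 + l 1 * a (Sum.inl 0) + l 2 * a (Sum.inl 1) = 0 := by
  rw [← mem_aff_surface, lineCurve_eq]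
  unfold affPart pre aff
  rw [Set.mem_ofPred_eq, Set.mem_ofPred_eq, Set.mem_ofPred_eq, vanishesAt_mk (isBihom_lin l),
    eval_lin, Fin.sum_univ_three]
  simp

/-- an element algebraic over an algebraically closed field is a constant -/
theorem const_of_algebraic [IsAlgClosed k] {K : Type*} [Field K] [Algebra k K] {t : K}
    (h : ¬ Transcendental k t) : ∃ c : k, algebraMap k K c = t := by
  rw [Transcendental, not_not] at h
  have hint : IsIntegral k t := h.isIntegral
  have h1 := IsAlgClosed.degree_eq_one_of_irreducible k (minpoly.irreducible hint)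
  exact minpoly.mem_range_of_degree_eq_one k t h1

end

section

variable {k : Type*} [Field k] [CharP k 2]

/-- the first component of `s⁴ × s` on the line -/
noncomputable def Dp (α β : k) : Polynomial k :=
  Polynomial.C α * Polynomial.X ^ 4 + Polynomial.C (β - β ^ 4) * Polynomial.X ^ 5 -
    Polynomial.C (α ^ 4) * Polynomial.X

/-- the combination of the other components -/
noncomputable def Np (α β : k) : Polynomial k :=
  Polynomial.C (α ^ 4 - α) + Polynomial.C (β ^ 4 - β) * Polynomial.X ^ 4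

omit [CharP k 2] in
theorem Dp_ne_zero {α β : k} (h : ¬ (α ^ 4 = α ∧ β ^ 4 = β)) : Dp α β ≠ 0 := by
  intro h0
  apply h
  have h4 := congrArg (fun p => Polynomial.coeff p 4) h0
  have h5 := congrArg (fun p => Polynomial.coeff p 5) h0
  simp [Dp, Polynomial.coeff_X, Polynomial.coeff_X_pow, Polynomial.coeff_C_mul,
    -map_sub, -map_pow] at h4 h5
  constructor
  · rw [h4]
    ring
  · linear_combination -h5

omit [CharP k 2] in
theorem Np_ne_zero {α β : k} (h : ¬ (α ^ 4 = α ∧ β ^ 4 = β)) : Np α β ≠ 0 := by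
  intro h0
  apply h
  have h4 := congrArg (fun p => Polynomial.coeff p 4) h0
  have h5 := congrArg (fun p => Polynomial.coeff p 0) h0
  simp [Np, Polynomial.coeff_C, Polynomial.coeff_X_pow, Polynomial.coeff_C_mul,
    -map_sub, -map_pow] at h4 h5
  constructor
  · linear_combination h5
  · linear_combination h4

theorem fourth {R : Type*} [CommRing R] (t2 : (2 : R) = 0) (a b : R) :
    (a + b) ^ 4 = a ^ 4 + b ^ 4 := by
  linear_combination (2 * a ^ 3 * b + 3 * a ^ 2 * b ^ 2 + 2 * a * b ^ 3) * t2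

/-- points of the curve -/
theorem exists_pt_line [IsAlgClosed k] {l : Fin 3 → k} (hl : eval l (Phi k) ≠ 0) {α β : k}
    (hα : α ^ 2 * l 2 = l 0) (hβ : β ^ 2 * l 2 = l 1) (c : k) :
    ∃ a ∈ affPart (lineCurve l), a (Sum.inl 0) ≠ c ^ 2 ∧
      a (Sum.inr 0) + β * a (Sum.inr 1) ≠ 0 := by
  have t2 : (2 : k) = 0 := two_zero
  have hF := not_F4 hl hα hβ
  have hP : Dp α β * Np α β * (Polynomial.X - Polynomial.C c) ≠ 0 :=
    mul_ne_zero (mul_ne_zero (Dp_ne_zero hF) (Np_ne_zero hF)) (Polynomial.X_sub_C_ne_zero c)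
  obtain ⟨t, ht⟩ : ∃ t, (Dp α β * Np α β * (Polynomial.X - Polynomial.C c)).eval t ≠ 0 := by
    by_contra hcon
    push Not at hcon
    exact hP (Polynomial.funext fun t => by rw [hcon, Polynomial.eval_zero])
  rw [Polynomial.eval_mul, Polynomial.eval_mul] at ht
  have h1 := left_ne_zero_of_mul (left_ne_zero_of_mul ht)
  have h2 := right_ne_zero_of_mul (left_ne_zero_of_mul ht)
  have h3 := right_ne_zero_of_mul ht
  have e0 : cx (sv α β 1 t) (sv α β 1 t) 0 = (Dp α β).eval t := by
    simp [sv, Dp]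
    rw [fourth t2]
    ring
  have e1 : cx (sv α β 1 t) (sv α β 1 t) 1 + β * cx (sv α β 1 t) (sv α β 1 t) 2 =
      (Np α β).eval t := by
    simp [sv, Np]
    rw [fourth t2]
    ring
  rw [← e0] at h1
  rw [← e1] at h2
  obtain ⟨p1, p2⟩ := mem_param (s := sv α β 1 t)
  have p3 := sv_mem hα hβ 1 t
  have s0 : sv α β 1 t 0 = 1 := rfl
  have s1 : sv α β 1 t 1 = t := rfl
  rw [s0, s1] at p1 p2 p3
  set τ := sv α β 1 t 2
  set c0 := cx (sv α β 1 t) (sv α β 1 t) 0
  set c1 := cx (sv α β 1 t) (sv α β 1 t) 1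
  set c2 := cx (sv α β 1 t) (sv α β 1 t) 2
  refine ⟨Sum.elim ![t ^ 2, τ ^ 2] ![c1 / c0, c2 / c0], ?_, ?_, ?_⟩
  · rw [mem_aff_line]
    simp only [Sum.elim_inl, Sum.elim_inr, Matrix.cons_val_zero, Matrix.cons_val_one]
    refine ⟨⟨?_, ?_⟩, ?_⟩
    · field_simp
      linear_combination p1
    · field_simp
      linear_combination p2
    · linear_combination p3
  · simp only [Sum.elim_inl, Matrix.cons_val_zero]
    intro h
    apply h3
    have : (t - c) ^ 2 = 0 := by linear_combination h + (c ^ 2 - t * c) * t2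
    rw [Polynomial.eval_sub, Polynomial.eval_X, Polynomial.eval_C]
    exact pow_eq_zero_iff (two_ne_zero) |>.1 this
  · simp only [Sum.elim_inr, Matrix.cons_val_zero, Matrix.cons_val_one]
    have : c1 / c0 + β * (c2 / c0) = (c1 + β * c2) / c0 := by
      field_simp
    rw [this]
    exact div_ne_zero h2 h1

end

section

variable {k : Type*} [Field k] [IsAlgClosed k] [CharP k 2]

theorem nonempty_line {l : Fin 3 → k} (hl : eval l (Phi k) ≠ 0) :
    (affPart (lineCurve l)).Nonempty := by
  have hl2 : l 2 ≠ 0 := by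
    intro h
    apply hl
    rw [eval_Phi, h, zero_mul]
  obtain ⟨α, hα⟩ := IsAlgClosed.exists_pow_nat_eq (l 0 / l 2) (n := 2) (by norm_num)
  obtain ⟨β, hβ⟩ := IsAlgClosed.exists_pow_nat_eq (l 1 / l 2) (n := 2) (by norm_num)
  obtain ⟨a, ha, _⟩ := exists_pt_line hl (α := α) (β := β) (by rw [hα]; field_simp)
    (by rw [hβ]; field_simp) 0
  exact ⟨a, ha⟩

theorem irred_line {l : Fin 3 → k} (hl : eval l (Phi k) ≠ 0) : IsIrred (lineCurve l) := by
  have hl2 : l 2 ≠ 0 := by
    intro h
    apply hl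
    rw [eval_Phi, h, zero_mul]
  obtain ⟨α, hα⟩ := IsAlgClosed.exists_pow_nat_eq (l 0 / l 2) (n := 2) (by norm_num)
  obtain ⟨β, hβ⟩ := IsAlgClosed.exists_pow_nat_eq (l 1 / l 2) (n := 2) (by norm_num)
  exact irred_lineCurve hl (α := α) (β := β) (by rw [hα]; field_simp) (by rw [hβ]; field_simp)

theorem prime_line {l : Fin 3 → k} (hl : eval l (Phi k) ≠ 0) : (affIdeal (lineCurve l)).IsPrime :=
  affIdeal_prime (irred_line hl) (nonempty_line hl)

/-- the curve over a general line is rational -/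
theorem least_line {l : Fin 3 → k} (hl : eval l (Phi k) ≠ 0)
    [hp : (affIdeal (lineCurve l)).IsPrime] :
    IsLeast (pencilDegrees k (CoordRing (lineCurve l))) 1 := by
  refine ⟨?_, fun d hd => hd.1⟩
  have hl2 : l 2 ≠ 0 := by
    intro h
    apply hl
    rw [eval_Phi, h, zero_mul]
  obtain ⟨α, hα⟩ := IsAlgClosed.exists_pow_nat_eq (l 0 / l 2) (n := 2) (by norm_num)
  obtain ⟨β, hβ⟩ := IsAlgClosed.exists_pow_nat_eq (l 1 / l 2) (n := 2) (by norm_num)
  replace hα : α ^ 2 * l 2 = l 0 := by rw [hα]; field_simp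
  replace hβ : β ^ 2 * l 2 = l 1 := by rw [hβ]; field_simp
  have t2 : (2 : FunField (lineCurve l)) = 0 := by
    have h : algebraMap k (FunField (lineCurve l)) 2 = 0 := by rw [two_zero, map_zero]
    rwa [map_ofNat] at h
  have r1 : 1 + coord (lineCurve l) (Sum.inl 0) ^ 2 * coord (lineCurve l) (Sum.inr 0) +
      coord (lineCurve l) (Sum.inl 1) ^ 2 * coord (lineCurve l) (Sum.inr 1) = 0 := by
    have h := (aeval_coord_eq_zero_iff (Z := lineCurve l) (1 + X (Sum.inl 0) ^ 2 * X (Sum.inr 0) +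
      X (Sum.inl 1) ^ 2 * X (Sum.inr 1))).2 fun a ha => by
        have := ((mem_aff_line l a).1 ha).1.1
        simpa using this
    simpa using h
  have r2 : 1 + coord (lineCurve l) (Sum.inl 0) * coord (lineCurve l) (Sum.inr 0) ^ 2 +
      coord (lineCurve l) (Sum.inl 1) * coord (lineCurve l) (Sum.inr 1) ^ 2 = 0 := by
    have h := (aeval_coord_eq_zero_iff (Z := lineCurve l) (1 + X (Sum.inl 0) * X (Sum.inr 0) ^ 2 +
      X (Sum.inl 1) * X (Sum.inr 1) ^ 2)).2 fun a ha => by
        have := ((mem_aff_line l a).1 ha).1.2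
        simpa using this
    simpa using h
  have r3 : algebraMap k _ (l 0) + algebraMap k _ (l 1) * coord (lineCurve l) (Sum.inl 0) +
      algebraMap k _ (l 2) * coord (lineCurve l) (Sum.inl 1) = 0 := by
    have h := (aeval_coord_eq_zero_iff (Z := lineCurve l) (C (l 0) + C (l 1) * X (Sum.inl 0) +
      C (l 2) * X (Sum.inl 1))).2 fun a ha => by
        have := ((mem_aff_line l a).1 ha).2
        simpa using this
    simpa using h
  have r4 : coord (lineCurve l) (Sum.inr 0) + algebraMap k _ β * coord (lineCurve l) (Sum.inr 1) ≠ 0 := by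
    intro h0
    have h : aeval (coord (lineCurve l)) (X (Sum.inr 0) + C β * X (Sum.inr 1)) = 0 := by
      simpa using h0
    rw [aeval_coord_eq_zero_iff] at h
    obtain ⟨a, ha, _, ha2⟩ := exists_pt_line hl hα hβ 0
    apply ha2
    have := h a ha
    simpa using this
  have r5 : ∀ c : k, coord (lineCurve l) (Sum.inl 0) ≠ algebraMap k _ (c ^ 2) := by
    intro c h0
    have h : aeval (coord (lineCurve l)) (X (Sum.inl 0) - C (c ^ 2)) = 0 := by
      rw [map_sub, aeval_X, aeval_C, h0, sub_self]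
    rw [aeval_coord_eq_zero_iff] at h
    obtain ⟨a, ha, ha1, _⟩ := exists_pt_line hl hα hβ c
    apply ha1
    have := h a ha
    rw [map_sub, eval_X, eval_C] at this
    linear_combination this
  have htop := adjoin_coord (Z := lineCurve l)
  rw [range_coord] at htop
  have hF := not_F4 hl hα hβ
  set x := coord (lineCurve l) (Sum.inl 0)
  set y := coord (lineCurve l) (Sum.inl 1)
  set z := coord (lineCurve l) (Sum.inr 0)
  set w := coord (lineCurve l) (Sum.inr 1)
  set A : FunField (lineCurve l) := algebraMap k _ α with hA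
  set B : FunField (lineCurve l) := algebraMap k _ β with hB
  have hlK : (algebraMap k (FunField (lineCurve l)) (l 2)) ≠ 0 := by
    rw [Ne, map_eq_zero]
    exact hl2
  have r3' : y = A ^ 2 + B ^ 2 * x := by
    rw [← hα, ← hβ, map_mul, map_mul, map_pow, map_pow, ← hA, ← hB] at r3
    have h : algebraMap k (FunField (lineCurve l)) (l 2) * (y - (A ^ 2 + B ^ 2 * x)) = 0 := by
      linear_combination r3 - algebraMap k (FunField (lineCurve l)) (l 2) * (A ^ 2 + B ^ 2 * x) * t2
    exact sub_eq_zero.1 ((mul_eq_zero.1 h).resolve_left hlK)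
  -- the parameter
  obtain ⟨T, hT⟩ : ∃ T, T * (z + B * w) = 1 + A * w := ⟨(1 + A * w) / (z + B * w),
    div_mul_cancel₀ _ r4⟩
  have hTx : T ^ 2 = x := by
    have h : (T ^ 2 - x) * (z + B * w) ^ 2 = 0 := by
      have h1 : (T * (z + B * w)) ^ 2 = (1 + A * w) ^ 2 := by rw [hT]
      rw [r3'] at r2
      linear_combination h1 + r2 + (A * w - x * z ^ 2 - x * z * B * w - x * B ^ 2 * w ^ 2) * t2
    exact sub_eq_zero.1 ((mul_eq_zero.1 h).resolve_right (pow_ne_zero 2 r4))
  have hTr : Transcendental k T := by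
    by_contra hcon
    obtain ⟨c, hc⟩ := const_of_algebraic hcon
    apply r5 c
    rw [← hTx, ← hc, map_pow]
  have hTy : y = (A + B * T) ^ 2 := by
    rw [r3', ← hTx]
    linear_combination -(A * B * T) * t2
  have hΔ : T ^ 4 * (A + B * T) - (A + B * T) ^ 4 * T ≠ 0 := by
    intro h
    apply Dp_ne_zero hF
    refine (injective_iff_map_eq_zero _).1 (transcendental_iff_injective.1 hTr) _ ?_
    rw [Dp]
    simp only [map_sub, map_add, map_mul, map_pow, Polynomial.aeval_X, Polynomial.aeval_C,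
      ← hA, ← hB]
    rw [fourth t2] at h
    linear_combination h
  have hlin : T * z + (A + B * T) * w = 1 := by
    linear_combination hT + A * w * t2
  have hlin4 : T ^ 4 * z + (A + B * T) ^ 4 * w = 1 := by
    rw [← hTx, hTy] at r1
    linear_combination r1 - t2
  have hz : z = ((A + B * T) - (A + B * T) ^ 4) / (T ^ 4 * (A + B * T) - (A + B * T) ^ 4 * T) := by
    rw [eq_div_iff hΔ]
    linear_combination (A + B * T) * hlin4 - (A + B * T) ^ 4 * hlin
  have hw : w = (T ^ 4 - T) / (T ^ 4 * (A + B * T) - (A + B * T) ^ 4 * T) := by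
    rw [eq_div_iff hΔ]
    linear_combination T ^ 4 * hlin - T * hlin4
  have hgen : IntermediateField.adjoin k {T} = ⊤ := by
    rw [eq_top_iff, ← htop, IntermediateField.adjoin_le_iff]
    have mT : T ∈ IntermediateField.adjoin k ({T} : Set (FunField (lineCurve l))) :=
      IntermediateField.subset_adjoin _ _ rfl
    have mA : A ∈ IntermediateField.adjoin k ({T} : Set (FunField (lineCurve l))) :=
      algebraMap_mem _ α
    have mB : B ∈ IntermediateField.adjoin k ({T} : Set (FunField (lineCurve l))) :=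
      algebraMap_mem _ β
    have mτ : A + B * T ∈ IntermediateField.adjoin k ({T} : Set (FunField (lineCurve l))) :=
      add_mem mA (mul_mem mB mT)
    have mΔ := sub_mem (mul_mem (pow_mem mT 4) mτ) (mul_mem (pow_mem mτ 4) mT)
    rintro v (rfl | rfl | rfl | rfl)
    · change x ∈ _
      rw [← hTx]
      exact pow_mem mT 2
    · change y ∈ _
      rw [hTy]
      exact pow_mem mτ 2
    · change z ∈ _
      rw [hz]
      exact div_mem (sub_mem mτ (pow_mem mτ 4)) mΔ
    · change w ∈ _
      rw [hw]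
      exact div_mem (sub_mem (pow_mem mT 4) mT) mΔ
  exact ⟨by norm_num, T, hTr, IntermediateField.finrank_eq_one_iff_eq_top.2 hgen⟩

end

end Pool.Agent.R863.DK
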